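import Mathlib

/-!
# TwistedForms, TF-1: the basic inequality for one representation of a finite group

`τ` is a complex representation of the finite group `G` on `U`, `χ` its character, `n₀` the dimension
of the space of invariants, `n = dim U`.  For real `c_i` and `g_i ∈ G`:
`‖∑ c_i (χ(g_i) - n₀)‖² ≤ (n - n₀) ∑_{i,j} c_i c_j (χ(g_j⁻¹ g_i) - n₀)`.

Proof.  In a suitable basis all `τ g` are unitary matrices `U_g`: with `A_g` the matrix of `τ g` in
any basis, `M = ∑_g A_gᴴ A_g` is positive definite (the summand `g = 1` is the identity) and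
`A_hᴴ M A_h = M`; write `M = Sᴴ S` with `S` invertible and `U_g = S A_g S⁻¹` (compare
`Pool/Agent/H3/Artin/ConjChar.lean`, `character_inv`).  Let `P = (1/#G) ∑ U_g`: `Pᴴ = P`, `P² = P`,
`U_g P = P U_g = P`, `tr P = n₀` (`Representation.card_inv_mul_sum_char_eq_finrank`).  Put
`T = ∑ c_i (U_{g_i} - P)`.  Then `tr T = ∑ c_i (χ(g_i) - n₀)`,
`tr(Tᴴ T) = ∑_{i,j} c_i c_j (χ(g_j⁻¹ g_i) - n₀)`, and `T = T (1 - P)`, so by Cauchy-Schwarz for the
entries `|tr T|² ≤ tr(Tᴴ T) · tr((1-P)ᴴ(1-P)) = tr(Tᴴ T) (n - n₀)`.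
-/

open Module

open scoped Matrix MatrixOrder ComplexOrder

namespace Pool.Agent.H3.TF

section Defs

variable {G : Type*} [Group G] {ι : Type*} [Fintype ι]

/-- the quadratic form `∑ c_i c_j (f(g_j⁻¹ g_i) - f₀)` -/
def QQ (f : G → ℝ) (f₀ : ℝ) (c : ι → ℝ) (g : ι → G) : ℝ :=
  ∑ i, ∑ j, c i * c j * (f ((g j)⁻¹ * g i) - f₀)

end Defs

section MatrixCS

variable {n : Type*} [Fintype n]

theorem ineq_trace_self (X : Matrix n n ℂ) :
    (Xᴴ * X).trace.re = ∑ p : n × n, ‖X p.1 p.2‖ ^ 2 := by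
  rw [Fintype.sum_prod_type, Finset.sum_comm, Matrix.trace, Complex.re_sum]
  refine Finset.sum_congr rfl fun a _ => ?_
  rw [Matrix.diag_apply, Matrix.mul_apply, Complex.re_sum]
  refine Finset.sum_congr rfl fun b _ => ?_
  rw [Matrix.conjTranspose_apply, ← Complex.normSq_eq_norm_sq]
  change ((starRingEnd ℂ) (X b a) * X b a).re = _
  rw [← Complex.normSq_eq_conj_mul_self, Complex.ofReal_re]

theorem ineq_trace_cs (X Y : Matrix n n ℂ) :
    ‖(X * Y).trace‖ ^ 2 ≤ (Xᴴ * X).trace.re * (Yᴴ * Y).trace.re := by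
  rw [ineq_trace_self, ineq_trace_self]
  have h1 : ‖(X * Y).trace‖ ≤ ∑ p : n × n, ‖X p.1 p.2‖ * ‖Y p.2 p.1‖ := by
    rw [Matrix.trace, Fintype.sum_prod_type]
    refine (norm_sum_le _ _).trans (Finset.sum_le_sum fun a _ => ?_)
    rw [Matrix.diag_apply, Matrix.mul_apply]
    refine (norm_sum_le _ _).trans (Finset.sum_le_sum fun b _ => ?_)
    rw [norm_mul]
  have h2 : ∑ p : n × n, ‖Y p.2 p.1‖ ^ 2 = ∑ p : n × n, ‖Y p.1 p.2‖ ^ 2 :=
    Equiv.sum_comp (Equiv.prodComm n n) (fun p : n × n => ‖Y p.1 p.2‖ ^ 2)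
  calc ‖(X * Y).trace‖ ^ 2 ≤ (∑ p : n × n, ‖X p.1 p.2‖ * ‖Y p.2 p.1‖) ^ 2 :=
        pow_le_pow_left₀ (norm_nonneg _) h1 2
    _ ≤ (∑ p : n × n, ‖X p.1 p.2‖ ^ 2) * ∑ p : n × n, ‖Y p.2 p.1‖ ^ 2 :=
        Finset.sum_mul_sq_le_sq_mul_sq _ _ _
    _ = _ := by rw [h2]

end MatrixCS

section Unitary

variable {G : Type*} [Group G] [Fintype G]
variable {V : Type*} [AddCommGroup V] [Module ℂ V] [FiniteDimensional ℂ V]

/-- a representation of a finite group is unitary in a suitable basis -/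
theorem ineq_exists_unitary (ρ : Representation ℂ G V) :
    ∃ B : G → Matrix (Fin (finrank ℂ V)) (Fin (finrank ℂ V)) ℂ,
      (∀ g h, B (g * h) = B g * B h) ∧ B 1 = 1 ∧ (∀ g, (B g)ᴴ = B g⁻¹) ∧
      ∀ g, (B g).trace = ρ.character g := by
  classical
  let b := Module.finBasis ℂ V
  let A : G → Matrix (Fin (finrank ℂ V)) (Fin (finrank ℂ V)) ℂ := fun g => LinearMap.toMatrix b b (ρ g)
  have hmul : ∀ g h, A (g * h) = A g * A h := by
    intro g h
    change LinearMap.toMatrix b b (ρ (g * h)) = _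
    rw [map_mul, Module.End.mul_eq_comp, LinearMap.toMatrix_comp b b b]
  have hone : A 1 = 1 := by
    change LinearMap.toMatrix b b (ρ 1) = _
    rw [map_one, Module.End.one_eq_id, LinearMap.toMatrix_id]
  have htr : ∀ g, ρ.character g = (A g).trace := fun g =>
    LinearMap.trace_eq_matrix_trace ℂ b (ρ g)
  let H : Matrix (Fin (finrank ℂ V)) (Fin (finrank ℂ V)) ℂ := ∑ g : G, (A g)ᴴ * A g
  have hH : H.PosDef := by
    have h1 : H = (A 1)ᴴ * A 1 + ∑ g ∈ Finset.univ.erase (1 : G), (A g)ᴴ * A g :=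
      (Finset.add_sum_erase _ _ (Finset.mem_univ 1)).symm
    rw [h1, hone]
    refine Matrix.PosDef.add_posSemidef ?_ ?_
    · rw [Matrix.conjTranspose_one, one_mul]
      exact Matrix.PosDef.one
    · refine Matrix.posSemidef_sum _ fun g _ => ?_
      exact Matrix.posSemidef_conjTranspose_mul_self (A g)
  have hinv : ∀ x, (A x)ᴴ * H * A x = H := by
    intro x
    change (A x)ᴴ * (∑ g : G, (A g)ᴴ * A g) * A x = ∑ g : G, (A g)ᴴ * A g
    rw [Finset.mul_sum, Finset.sum_mul,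
      ← Equiv.sum_comp (Equiv.mulRight x) (fun g => (A g)ᴴ * A g)]
    refine Finset.sum_congr rfl fun g _ => ?_
    rw [Equiv.coe_mulRight, hmul, Matrix.conjTranspose_mul]
    simp only [Matrix.mul_assoc]
  obtain ⟨S, hS⟩ := CStarAlgebra.nonneg_iff_eq_star_mul_self.mp hH.posSemidef.nonneg
  rw [Matrix.star_eq_conjTranspose] at hS
  have hHdet : IsUnit H.det := hH.isUnit.map Matrix.detMonoidHom
  have hdet : IsUnit S.det := by
    rw [hS, Matrix.det_mul] at hHdet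
    exact isUnit_of_mul_isUnit_right hHdet
  have hS1 : S * S⁻¹ = 1 := Matrix.mul_nonsing_inv S hdet
  have hS2 : S⁻¹ * S = 1 := Matrix.nonsing_inv_mul S hdet
  refine ⟨fun g => S * A g * S⁻¹, ?_, ?_, ?_, ?_⟩
  · intro g h
    calc S * A (g * h) * S⁻¹ = S * (A g * (1 * A h)) * S⁻¹ := by rw [hmul, one_mul]
      _ = S * (A g * ((S⁻¹ * S) * A h)) * S⁻¹ := by rw [hS2]
      _ = S * A g * S⁻¹ * (S * A h * S⁻¹) := by simp only [Matrix.mul_assoc]
  · change S * A 1 * S⁻¹ = 1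
    rw [hone, mul_one, hS1]
  · intro g
    change (S * A g * S⁻¹)ᴴ = S * A g⁻¹ * S⁻¹
    have h2 : (A g)ᴴ * H = H * A g⁻¹ := by
      have h3 : A g * A g⁻¹ = 1 := by rw [← hmul, mul_inv_cancel, hone]
      calc (A g)ᴴ * H = (A g)ᴴ * H * (A g * A g⁻¹) := by rw [h3, mul_one]
        _ = ((A g)ᴴ * H * A g) * A g⁻¹ := by simp only [Matrix.mul_assoc]
        _ = H * A g⁻¹ := by rw [hinv]
    have h4 : (S⁻¹)ᴴ * Sᴴ = 1 := by
      rw [← Matrix.conjTranspose_mul, hS1, Matrix.conjTranspose_one]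
    rw [Matrix.conjTranspose_mul, Matrix.conjTranspose_mul]
    calc (S⁻¹)ᴴ * ((A g)ᴴ * Sᴴ) = (S⁻¹)ᴴ * ((A g)ᴴ * Sᴴ) * (S * S⁻¹) := by rw [hS1, mul_one]
      _ = (S⁻¹)ᴴ * ((A g)ᴴ * (Sᴴ * S)) * S⁻¹ := by simp only [Matrix.mul_assoc]
      _ = (S⁻¹)ᴴ * (Sᴴ * S * A g⁻¹) * S⁻¹ := by rw [← hS, h2]
      _ = ((S⁻¹)ᴴ * Sᴴ) * S * A g⁻¹ * S⁻¹ := by simp only [Matrix.mul_assoc]
      _ = S * A g⁻¹ * S⁻¹ := by rw [h4, one_mul]
  · intro g
    change (S * A g * S⁻¹).trace = _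
    rw [htr, Matrix.trace_mul_comm, ← Matrix.mul_assoc, hS2, one_mul]

end Unitary

section Ineq

variable {G : Type*} [Group G] [Fintype G] {ι : Type*} [Fintype ι]
variable {U : Type*} [AddCommGroup U] [Module ℂ U] [FiniteDimensional ℂ U]

theorem rep_ineq (τ : Representation ℂ G U) (c : ι → ℝ) (g : ι → G) :
    0 ≤ QQ (fun x => (τ.character x).re) (finrank ℂ τ.invariants) c g ∧
    ‖∑ i, (c i : ℂ) * (τ.character (g i) - finrank ℂ τ.invariants)‖ ^ 2 ≤
      ((finrank ℂ U : ℝ) - finrank ℂ τ.invariants) *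
        QQ (fun x => (τ.character x).re) (finrank ℂ τ.invariants) c g := by
  classical
  obtain ⟨B, hmul, hone, hstar, htr⟩ := ineq_exists_unitary τ
  have hcard : (Nat.card G : ℂ) ≠ 0 := by exact_mod_cast Nat.card_pos.ne'
  let _ : Invertible (Nat.card G : ℂ) := invertibleOfNonzero hcard
  have hfin := τ.card_inv_mul_sum_char_eq_finrank
  set P : Matrix (Fin (finrank ℂ U)) (Fin (finrank ℂ U)) ℂ :=
    (Nat.card G : ℂ)⁻¹ • ∑ x : G, B x with hP
  have hBP : ∀ x, B x * P = P := by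
    intro x
    rw [hP, Matrix.mul_smul, Finset.mul_sum]
    congr 1
    rw [← Equiv.sum_comp (Equiv.mulLeft x) B]
    exact Finset.sum_congr rfl fun y _ => (hmul x y).symm
  have hPB : ∀ x, P * B x = P := by
    intro x
    rw [hP, Matrix.smul_mul, Finset.sum_mul]
    congr 1
    rw [← Equiv.sum_comp (Equiv.mulRight x) B]
    exact Finset.sum_congr rfl fun y _ => (hmul y x).symm
  have hPP : P * P = P := by
    conv_lhs => rw [hP]
    rw [Matrix.smul_mul, Finset.sum_mul, Finset.sum_congr rfl fun x _ => hBP x,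
      Finset.sum_const, Finset.card_univ, ← Nat.card_eq_fintype_card, ← Nat.cast_smul_eq_nsmul ℂ,
      smul_smul, inv_mul_cancel₀ hcard, one_smul]
  have hPH : Pᴴ = P := by
    rw [hP, Matrix.conjTranspose_smul, Matrix.conjTranspose_sum, ← Equiv.sum_comp (Equiv.inv G) B]
    congr 1
    · rw [star_inv₀, star_natCast]
    · exact Finset.sum_congr rfl fun y _ => hstar y
  have hPtr : P.trace = (finrank ℂ τ.invariants : ℂ) := by
    rw [hP, Matrix.trace_smul, Matrix.trace_sum, ← hfin, smul_eq_mul]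
    congr 1
    exact Finset.sum_congr rfl fun x _ => htr x
  set T : Matrix (Fin (finrank ℂ U)) (Fin (finrank ℂ U)) ℂ :=
    ∑ i, (c i : ℂ) • (B (g i) - P) with hT
  have hTtr : T.trace = ∑ i, (c i : ℂ) * (τ.character (g i) - finrank ℂ τ.invariants) := by
    rw [hT, Matrix.trace_sum]
    refine Finset.sum_congr rfl fun i _ => ?_
    rw [Matrix.trace_smul, Matrix.trace_sub, htr, hPtr, smul_eq_mul]
  have hTT : (Tᴴ * T).trace.re =
      QQ (fun x => (τ.character x).re) (finrank ℂ τ.invariants) c g := by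
    have hTH : Tᴴ = ∑ j, (c j : ℂ) • (B (g j)⁻¹ - P) := by
      rw [hT, Matrix.conjTranspose_sum]
      refine Finset.sum_congr rfl fun j _ => ?_
      rw [Matrix.conjTranspose_smul, Matrix.conjTranspose_sub, hstar, hPH]
      congr 1
      exact Complex.conj_ofReal (c j)
    have h1 : Tᴴ * T = ∑ i, ∑ j, ((c i : ℂ) * c j) • (B ((g j)⁻¹ * g i) - P) := by
      rw [hTH, hT, Finset.sum_mul_sum, Finset.sum_comm]
      refine Finset.sum_congr rfl fun i _ => Finset.sum_congr rfl fun j _ => ?_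
      rw [Matrix.smul_mul, Matrix.mul_smul, smul_smul, mul_comm (c j : ℂ), Matrix.sub_mul,
        Matrix.mul_sub, Matrix.mul_sub, hBP, hPB, hPP, hmul, sub_self, sub_zero]
    rw [h1, Matrix.trace_sum, Complex.re_sum, QQ]
    refine Finset.sum_congr rfl fun i _ => ?_
    rw [Matrix.trace_sum, Complex.re_sum]
    refine Finset.sum_congr rfl fun j _ => ?_
    rw [Matrix.trace_smul, Matrix.trace_sub, htr, hPtr, smul_eq_mul, ← Complex.ofReal_mul,
      Complex.re_ofReal_mul, Complex.sub_re, Complex.natCast_re]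
  have hTR : T * (1 - P) = T := by
    rw [hT, Finset.sum_mul]
    refine Finset.sum_congr rfl fun i _ => ?_
    rw [Matrix.smul_mul, Matrix.mul_sub, Matrix.sub_mul _ _ P, hBP, hPP, mul_one, sub_self,
      sub_zero]
  have hRR : ((1 - P)ᴴ * (1 - P)).trace.re = (finrank ℂ U : ℝ) - finrank ℂ τ.invariants := by
    have h1 : (1 - P)ᴴ * (1 - P) = 1 - P := by
      rw [Matrix.conjTranspose_sub, Matrix.conjTranspose_one, hPH, Matrix.mul_sub, Matrix.mul_one,
        Matrix.sub_mul, one_mul, hPP, sub_self, sub_zero]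
    rw [h1, Matrix.trace_sub, hPtr, Matrix.trace_one, Fintype.card_fin, Complex.sub_re,
      Complex.natCast_re, Complex.natCast_re]
  constructor
  · rw [← hTT, ineq_trace_self]
    exact Finset.sum_nonneg fun p _ => sq_nonneg _
  · rw [← hTtr, ← hTT, ← hRR, mul_comm]
    calc ‖T.trace‖ ^ 2 = ‖(T * (1 - P)).trace‖ ^ 2 := by rw [hTR]
      _ ≤ _ := ineq_trace_cs _ _

end Ineq

end Pool.Agent.H3.TF
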