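import Mathlib
import Pool.Agent.H3.TF.Ineq

/-!
# TwistedForms, TF-2: operators commuting with a finite group

`F` is an endomorphism of `U` commuting with the action `τ` of `G`, all of whose eigenvalues have
absolute value at most one.  Then the inequality of `rep_ineq` holds for the function
`g ↦ tr(τ(g) F)` in place of the character, with the same right hand side.

Proof.  `U` is the direct sum of the generalised eigenspaces `U_z` of `F` (`z` in the finite set of
eigenvalues; `Module.End.iSup_maxGenEigenspace_eq_top`, `Module.End.independent_maxGenEigenspace`),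
each of which is `G`-stable since `F` commutes with `G`.  Let `χ_z` be the character of `U_z` (a
representation `τ_z`) and `n_z`, `n_{0,z}` its dimension and the dimension of its invariants.  On
`U_z` the operator `τ(g) (F - z)` is nilpotent (commuting factors, one nilpotent), so its trace is
zero and `tr(τ(g) F | U_z) = z χ_z(g)`.  Hence `tr(τ(g) F) = ∑ z χ_z(g)`
(`LinearMap.trace_eq_sum_trace_restrict`), and for `F = 1`: `χ = ∑ χ_z`, so `n = ∑ n_z`,
`n₀ = ∑ n_{0,z}` (the mean of the character is the dimension of the invariants) and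
`QQ(χ) = ∑ QQ(χ_z)`.  The mean of `g ↦ tr(τ(g) F)` is `∑ z n_{0,z}`.  So the left hand side is at most
`(∑ |z| |∑ c_i (χ_z(g_i) - n_{0,z})|)² ≤ (∑ √(n_z - n_{0,z}) √QQ(χ_z))² ≤ (n - n₀) QQ(χ)`.
-/

open Module

namespace Pool.Agent.H3.TF

variable {G : Type*} [Group G] [Fintype G] {ι : Type*} [Fintype ι]
variable {U : Type*} [AddCommGroup U] [Module ℂ U] [FiniteDimensional ℂ U]

section CommAux

omit [Fintype G] [FiniteDimensional ℂ U] in
theorem comm_mapsTo (τ : Representation ℂ G U) (F : Module.End ℂ U)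
    (hF : ∀ g, F ∘ₗ τ g = τ g ∘ₗ F) (g : G) (z : ℂ) :
    Set.MapsTo (τ g) (F.maxGenEigenspace z) (F.maxGenEigenspace z) :=
  F.mapsTo_maxGenEigenspace_of_comm (show Commute F (τ g) from hF g) z

/-- the representation on a generalised eigenspace -/
noncomputable def commRep (τ : Representation ℂ G U) (F : Module.End ℂ U)
    (hF : ∀ g, F ∘ₗ τ g = τ g ∘ₗ F) (z : ℂ) : Representation ℂ G (F.maxGenEigenspace z) where
  toFun g := (τ g).restrict (comm_mapsTo τ F hF g z)
  map_one' := by
    ext x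
    simp
  map_mul' g h := by
    ext x
    change τ (g * h) (x : U) = τ g (τ h (x : U))
    rw [map_mul]
    rfl

omit [Fintype G] in
theorem commRep_trace (τ : Representation ℂ G U) (F : Module.End ℂ U)
    (hF : ∀ g, F ∘ₗ τ g = τ g ∘ₗ F) (z : ℂ) (g : G)
    (hm : Set.MapsTo (τ g ∘ₗ F) (F.maxGenEigenspace z) (F.maxGenEigenspace z)) :
    LinearMap.trace ℂ _ ((τ g ∘ₗ F).restrict hm) = z * (commRep τ F hF z).character g := by
  have hf' := F.mapsTo_maxGenEigenspace_of_comm (Commute.refl _) z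
  have hg' := comm_mapsTo τ F hF g z
  have h_comm : Commute ((τ g).restrict hg') (F.restrict hf') :=
    LinearMap.restrict_commute (show Commute F (τ g) from hF g).symm _ _
  have h := F.isNilpotent_restrict_maxGenEigenspace_sub_algebraMap z
  rw [LinearMap.restrict_comp hf' hg',
    LinearMap.trace_comp_eq_mul_of_commute_of_isNilpotent z h_comm h]
  rfl

theorem commRep_finite (F : Module.End ℂ U) : {z | F.maxGenEigenspace z ≠ ⊥}.Finite :=
  WellFoundedGT.finite_ne_bot_of_iSupIndep F.independent_maxGenEigenspace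

theorem commRep_internal (F : Module.End ℂ U) : DirectSum.IsInternal F.maxGenEigenspace :=
  DirectSum.isInternal_submodule_of_iSupIndep_of_iSup_eq_top
    F.independent_maxGenEigenspace (Module.End.iSup_maxGenEigenspace_eq_top F)

omit [Fintype G] in
theorem commRep_trace_sum (τ : Representation ℂ G U) (F : Module.End ℂ U)
    (hF : ∀ g, F ∘ₗ τ g = τ g ∘ₗ F) (g : G) :
    LinearMap.trace ℂ U (τ g ∘ₗ F) =
      ∑ z ∈ (commRep_finite F).toFinset, z * (commRep τ F hF z).character g := by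
  classical
  have hm : ∀ z, Set.MapsTo (τ g ∘ₗ F) (F.maxGenEigenspace z) (F.maxGenEigenspace z) :=
    fun z => (comm_mapsTo τ F hF g z).comp (F.mapsTo_maxGenEigenspace_of_comm (Commute.refl _) z)
  rw [LinearMap.trace_eq_sum_trace_restrict' (commRep_internal F) (commRep_finite F) hm]
  exact Finset.sum_congr rfl fun z _ => commRep_trace τ F hF z g (hm z)

omit [Fintype G] in
theorem commRep_char_sum (τ : Representation ℂ G U) (F : Module.End ℂ U)
    (hF : ∀ g, F ∘ₗ τ g = τ g ∘ₗ F) (g : G) :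
    τ.character g = ∑ z ∈ (commRep_finite F).toFinset, (commRep τ F hF z).character g := by
  classical
  change LinearMap.trace ℂ U (τ g) = _
  rw [LinearMap.trace_eq_sum_trace_restrict' (commRep_internal F) (commRep_finite F)
    (fun z => comm_mapsTo τ F hF g z)]
  rfl

theorem mean_char (τ : Representation ℂ G U) :
    (∑ x, τ.character x) / (Fintype.card G : ℂ) = (finrank ℂ τ.invariants : ℂ) := by
  have h0 : ((Nat.card G : ℕ) : ℂ) ≠ 0 := by
    rw [Nat.card_eq_fintype_card]
    exact_mod_cast Fintype.card_ne_zero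
  have := invertibleOfNonzero h0
  have h := Representation.card_inv_mul_sum_char_eq_finrank τ
  rw [← h, Nat.card_eq_fintype_card, div_eq_inv_mul]

end CommAux

theorem comm_ineq (τ : Representation ℂ G U) (F : U →ₗ[ℂ] U) (hF : ∀ g, F ∘ₗ τ g = τ g ∘ₗ F)
    (hw : ∀ z ∈ F.charpoly.roots, ‖z‖ ≤ 1) (c : ι → ℝ) (g : ι → G) :
    ‖∑ i, (c i : ℂ) * (LinearMap.trace ℂ U (τ (g i) ∘ₗ F) -
      (∑ x, LinearMap.trace ℂ U (τ x ∘ₗ F)) / Fintype.card G)‖ ^ 2 ≤
      ((finrank ℂ U : ℝ) - finrank ℂ τ.invariants) *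
        QQ (fun x => (τ.character x).re) (finrank ℂ τ.invariants) c g := by
  set S := (commRep_finite F).toFinset with hS
  set χ : ℂ → G → ℂ := fun z x => (commRep τ F hF z).character x with hχ
  set n₀ : ℂ → ℕ := fun z => finrank ℂ (commRep τ F hF z).invariants with hn₀
  set n : ℂ → ℕ := fun z => finrank ℂ (Module.End.maxGenEigenspace F z) with hn
  -- sums over the eigenvalues
  have hmean : ∀ z, (∑ x, χ z x) / (Fintype.card G : ℂ) = (n₀ z : ℂ) := fun z =>
    mean_char (commRep τ F hF z)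
  have hinv : (finrank ℂ τ.invariants : ℂ) = ∑ z ∈ S, (n₀ z : ℂ) := by
    rw [← mean_char τ]
    have : ∀ x, τ.character x = ∑ z ∈ S, χ z x := fun x => commRep_char_sum τ F hF x
    simp only [this]
    rw [Finset.sum_comm, Finset.sum_div]
    exact Finset.sum_congr rfl fun z _ => hmean z
  have hdim : (finrank ℂ U : ℂ) = ∑ z ∈ S, (n z : ℂ) := by
    have h1 := commRep_char_sum τ F hF 1
    rw [Representation.char_one] at h1
    rw [h1]
    exact Finset.sum_congr rfl fun z _ => Representation.char_one _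
  have hinvR : (finrank ℂ τ.invariants : ℝ) = ∑ z ∈ S, (n₀ z : ℝ) := by
    exact_mod_cast hinv
  have hdimR : (finrank ℂ U : ℝ) = ∑ z ∈ S, (n z : ℝ) := by
    exact_mod_cast hdim
  set q : ℂ → ℝ := fun z => QQ (fun x => (χ z x).re) (n₀ z) c g with hq
  have hQ : QQ (fun x => (τ.character x).re) (finrank ℂ τ.invariants) c g = ∑ z ∈ S, q z := by
    have h1 : ∀ x, (τ.character x).re = ∑ z ∈ S, (χ z x).re := by
      intro x
      rw [commRep_char_sum τ F hF x, Complex.re_sum]
    simp only [hq, QQ]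
    symm
    rw [Finset.sum_comm]
    refine Finset.sum_congr rfl fun i _ => ?_
    rw [Finset.sum_comm]
    refine Finset.sum_congr rfl fun j _ => ?_
    rw [h1, hinvR, ← Finset.sum_sub_distrib, Finset.mul_sum]
  -- the left hand side
  set a : ℂ → ℂ := fun z => ∑ i, (c i : ℂ) * (χ z (g i) - n₀ z) with ha
  have hL : ∑ i, (c i : ℂ) * (LinearMap.trace ℂ U (τ (g i) ∘ₗ F) -
      (∑ x, LinearMap.trace ℂ U (τ x ∘ₗ F)) / Fintype.card G) = ∑ z ∈ S, z * a z := by
    have h1 : ∀ x, LinearMap.trace ℂ U (τ x ∘ₗ F) = ∑ z ∈ S, z * χ z x := fun x =>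
      commRep_trace_sum τ F hF x
    have h2 : (∑ x, LinearMap.trace ℂ U (τ x ∘ₗ F)) / (Fintype.card G : ℂ) =
        ∑ z ∈ S, z * n₀ z := by
      simp only [h1]
      rw [Finset.sum_comm, Finset.sum_div]
      refine Finset.sum_congr rfl fun z _ => ?_
      rw [← Finset.mul_sum, mul_div_assoc, hmean]
    rw [h2]
    simp only [h1, ha, ← Finset.sum_sub_distrib, Finset.mul_sum]
    rw [Finset.sum_comm]
    refine Finset.sum_congr rfl fun z _ => Finset.sum_congr rfl fun i _ => ?_
    ring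
  have hrep : ∀ z, 0 ≤ q z ∧ ‖a z‖ ^ 2 ≤ ((n z : ℝ) - n₀ z) * q z := fun z =>
    rep_ineq (commRep τ F hF z) c g
  have hnn : ∀ z, (0 : ℝ) ≤ (n z : ℝ) - n₀ z := by
    intro z
    have : n₀ z ≤ n z := Submodule.finrank_le _
    have : (n₀ z : ℝ) ≤ n z := by exact_mod_cast this
    linarith
  have hz : ∀ z ∈ S, ‖z‖ ≤ 1 := by
    intro z hzS
    have hz1 : Module.End.maxGenEigenspace F z ≠ ⊥ := by
      rw [hS, Set.Finite.mem_toFinset] at hzS
      exact hzS
    have hz2 : Module.End.HasEigenvalue F z := by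
      have : Module.End.HasUnifEigenvalue F z ⊤ := hz1
      exact Module.End.HasUnifEigenvalue.lt zero_lt_one this
    apply hw
    rw [Polynomial.mem_roots (LinearMap.charpoly_monic F).ne_zero]
    exact (Module.End.hasEigenvalue_iff_isRoot_charpoly F z).1 hz2
  have h3 : ‖∑ z ∈ S, z * a z‖ ≤ ∑ z ∈ S, Real.sqrt (((n z : ℝ) - n₀ z) * q z) := by
    refine (norm_sum_le _ _).trans (Finset.sum_le_sum fun z hzS => ?_)
    rw [norm_mul]
    have h4 : ‖a z‖ ≤ Real.sqrt (((n z : ℝ) - n₀ z) * q z) := Real.le_sqrt_of_sq_le (hrep z).2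
    calc ‖z‖ * ‖a z‖ ≤ 1 * ‖a z‖ := mul_le_mul_of_nonneg_right (hz z hzS) (norm_nonneg _)
      _ = ‖a z‖ := one_mul _
      _ ≤ _ := h4
  have h5 : (∑ z ∈ S, Real.sqrt (((n z : ℝ) - n₀ z) * q z)) ^ 2 ≤
      (∑ z ∈ S, ((n z : ℝ) - n₀ z)) * ∑ z ∈ S, q z := by
    refine Finset.sum_sq_le_sum_mul_sum_of_sq_le_mul S (fun z _ => hnn z) (fun z _ => (hrep z).1)
      (fun z _ => ?_)
    rw [Real.sq_sqrt (mul_nonneg (hnn z) (hrep z).1)]
  rw [hL, hQ, hdimR, hinvR, ← Finset.sum_sub_distrib]
  refine le_trans ?_ h5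
  exact pow_le_pow_left₀ (norm_nonneg _) h3 2

end Pool.Agent.H3.TF
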