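import Mathlib
import Pool.Agent.H3.Artin.Final

/-!
# TwistedForms, TF-7: conjugation by an element of `Gal(Ω/k)`

`K/k` is finite and normal, `t ∈ Gal(Ω/k)`.

`exists_conj`: for `σ ∈ Gal(Ω/K)` there is `σ' ∈ Gal(Ω/K)` with `t (σ' x) = σ (t x)`, i.e.
`σ' = t⁻¹ σ t` (it fixes `K` because `t` maps `K` to itself).

`mu_conj`: let `ρ₁`, `ρ₂` be representations of `Gal(Ω/K)`, unramified at almost all primes, with
`χ₂(σ) = χ₁(t⁻¹ σ t)`.  Then the means of their Frobenius traces are equal.  The automorphism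
`s = t⁻¹|_K` of `K` permutes the primes of `K` and preserves norms; if `D` is a Frobenius at `𝔓` with
prime `Q` of `𝓞 Ω`, then `(t⁻¹ Q, t⁻¹ D.φ t)` is a Frobenius at `s 𝔓`.  At primes where both are
unramified, `ctr` is the real part of the character at the inverse of any Frobenius, divided by the
norm (`charpoly_geomFrob_eq`, `charpoly_geomFrob_of_unramified`, `sum_eigs`), so
`ctr ρ₂ 𝔓 = ctr ρ₁ (s 𝔓)` for almost all `𝔓`; and `wsum (u ∘ s) = wsum u` (`Equiv.tsum_eq`, equal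
norms), `mu_congr_finite`.  (`HeightOneSpectrum` permutation: for instance
`HeightOneSpectrum.comap`/`equivOfRingEquiv`, or build it by hand from `Ideal.map`; see also
`Pool/Agent/H8/TW/Conj.lean` (`act`, `absNorm_act`), which does this for `K ≃ₐ[k] K`.)

Status: complete (helper26).
-/

open NumberField IsDedekindDomain Filter Topology Module

namespace Pool.Agent.H3.TF

open TatePole Cheb Artin

variable {k : Type*} [Field k] [NumberField k] {Ω : Type*} [Field Ω] [Algebra k Ω] [IsGalois k Ω]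

theorem exists_conj (K : IntermediateField k Ω) [Normal k K] (t : Gal(Ω/k)) (σ : Gal(Ω/K)) :
    ∃ σ' : Gal(Ω/K), ∀ x : Ω, t (σ' x) = σ (t x) := by
  let f : Ω ≃+* Ω := (t.toRingEquiv.trans σ.toRingEquiv).trans t.symm.toRingEquiv
  have hf : ∀ x : Ω, f x = t.symm (σ (t x)) := fun x => rfl
  have hK : ∀ r : K, f (algebraMap K Ω r) = algebraMap K Ω r := by
    intro r
    rw [hf, ← AlgEquiv.restrictNormal_commutes t K r, AlgEquiv.commutes,
      AlgEquiv.restrictNormal_commutes t K r, AlgEquiv.symm_apply_apply]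
  refine ⟨AlgEquiv.ofRingEquiv (f := f) hK, fun x => ?_⟩
  change t (t.symm (σ (t x))) = σ (t x)
  rw [AlgEquiv.apply_symm_apply]

section aux

variable (K : IntermediateField k Ω) [FiniteDimensional k K] [Normal k K] (t : Gal(Ω/k))

/-- the ring automorphism of `𝓞 K` given by `t` -/
noncomputable def conjK : 𝓞 K ≃+* 𝓞 K :=
  RingOfIntegers.mapRingEquiv (t.restrictNormal K).toRingEquiv

/-- the ring automorphism of `𝓞 Ω` given by `t` -/
noncomputable def conjΩ : 𝓞 Ω ≃+* 𝓞 Ω := RingOfIntegers.mapRingEquiv t.toRingEquiv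

omit [FiniteDimensional k K] in
lemma conj_algebraMap (x : 𝓞 K) :
    conjΩ t (algebraMap (𝓞 K) (𝓞 Ω) x) = algebraMap (𝓞 K) (𝓞 Ω) (conjK K t x) := by
  apply RingOfIntegers.coe_injective (K := Ω)
  exact (AlgEquiv.restrictNormal_commutes t K (x : K)).symm

/-- the permutation of the primes -/
noncomputable def conjP : HeightOneSpectrum (𝓞 K) ≃ HeightOneSpectrum (𝓞 K) :=
  HeightOneSpectrum.equivOfRingEquiv (conjK K t).symm

lemma conjP_asIdeal (v : HeightOneSpectrum (𝓞 K)) :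
    (conjP K t v).asIdeal = v.asIdeal.comap (conjK K t : 𝓞 K →+* 𝓞 K) := rfl

lemma conjP_card (v : HeightOneSpectrum (𝓞 K)) :
    Nat.card (𝓞 K ⧸ (conjP K t v).asIdeal) = Nat.card (𝓞 K ⧸ v.asIdeal) := by
  refine Nat.card_congr (Ideal.quotientEquiv _ _ (conjK K t) ?_).toEquiv
  rw [conjP_asIdeal]
  exact (Ideal.map_comap_of_surjective _ (conjK K t).surjective _).symm

lemma conjP_nrm (v : HeightOneSpectrum (𝓞 K)) : nrm (conjP K t v) = nrm v := by
  unfold nrm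
  rw [Ideal.absNorm_apply, Ideal.absNorm_apply]
  congr 1
  exact conjP_card K t v

/-- conjugate Frobenius elements -/
lemma exists_conj_frob (v : HeightOneSpectrum (𝓞 K)) (D : FrobeniusAt Ω v) :
    ∃ D' : FrobeniusAt Ω (conjP K t v), ∀ x : Ω, t (D'.φ⁻¹ x) = D.φ⁻¹ (t x) := by
  obtain ⟨φ', hφ'⟩ := exists_conj K t D.φ
  haveI := D.isPrime
  have hund : (D.Q.comap (conjΩ t : 𝓞 Ω →+* 𝓞 Ω)).under (𝓞 K) = (conjP K t v).asIdeal := by
    rw [conjP_asIdeal, ← D.under_eq]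
    ext x
    simp only [Ideal.under, Ideal.mem_comap, RingHom.coe_coe]
    rw [conj_algebraMap]
  refine ⟨⟨D.Q.comap (conjΩ t : 𝓞 Ω →+* 𝓞 Ω), Ideal.comap_isPrime _ _, hund, φ', ?_⟩, ?_⟩
  · intro x
    have h1 := D.isArithFrob (conjΩ t x)
    have h2 : Nat.card (𝓞 K ⧸ (D.Q.comap (conjΩ t : 𝓞 Ω →+* 𝓞 Ω)).under (𝓞 K)) =
        Nat.card (𝓞 K ⧸ D.Q.under (𝓞 K)) := by
      rw [hund, D.under_eq]
      exact conjP_card K t v
    rw [h2, Ideal.mem_comap, map_sub, map_pow]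
    have h3 : (conjΩ t : 𝓞 Ω →+* 𝓞 Ω) ((MulSemiringAction.toAlgHom (𝓞 K) (𝓞 Ω) φ') x) =
        (MulSemiringAction.toAlgHom (𝓞 K) (𝓞 Ω) D.φ) (conjΩ t x) := by
      apply RingOfIntegers.coe_injective (K := Ω)
      exact hφ' (x : Ω)
    rw [h3]
    exact h1
  · intro x
    change t (φ'⁻¹ x) = D.φ⁻¹ (t x)
    have h4 := hφ' (φ'⁻¹ x)
    have h5 : φ' (φ'⁻¹ x) = x := by
      rw [← AlgEquiv.mul_apply, mul_inv_cancel, AlgEquiv.one_apply]
    rw [h5] at h4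
    rw [h4, ← AlgEquiv.mul_apply, inv_mul_cancel, AlgEquiv.one_apply]

variable {V : Type*} [AddCommGroup V] [Module ℂ V] [FiniteDimensional ℂ V]

omit [Normal k K] in
lemma sum_eigs_of_frob (ρ : Representation ℂ Gal(Ω/K) V) {v : HeightOneSpectrum (𝓞 K)}
    (h : Unram ρ v) (D : FrobeniusAt Ω v) :
    (eigs (RingHom.id ℂ) ρ v).sum = ρ.character D.φ⁻¹ := by
  unfold eigs
  rw [Polynomial.map_id, charpoly_geomFrob_eq ρ _ D,
    charpoly_geomFrob_of_unramified ρ _ (h _ D.isPrime D.under_eq), ← Artin.trace_eq_sum_roots]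
  rfl

lemma wsum_conjP (u : HeightOneSpectrum (𝓞 K) → ℝ) (s : ℝ) :
    wsum (fun v => u (conjP K t v)) s = wsum u s := by
  unfold wsum
  rw [← (conjP K t).tsum_eq (fun v => u v * nrm v ^ (-s))]
  refine tsum_congr fun v => ?_
  rw [conjP_nrm]

lemma mu_conjP {𝒰 : Ultrafilter ℝ} (h𝒰 : (𝒰 : Filter ℝ) ≤ 𝓝[>] 1)
    {u : HeightOneSpectrum (𝓞 K) → ℝ} (hu : Bdd u) :
    mu 𝒰 (fun v => u (conjP K t v)) = mu 𝒰 u := by
  apply mu_eq
  have h := mu_spec h𝒰 hu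
  unfold HasMean at h ⊢
  refine h.congr fun s => ?_
  rw [wsum_conjP]

end aux

theorem mu_conj {𝒰 : Ultrafilter ℝ} (h𝒰 : (𝒰 : Filter ℝ) ≤ 𝓝[>] 1)
    (K : IntermediateField k Ω) [FiniteDimensional k K] [Normal k K] (t : Gal(Ω/k))
    {V₁ V₂ : Type*} [AddCommGroup V₁] [Module ℂ V₁] [FiniteDimensional ℂ V₁]
    [AddCommGroup V₂] [Module ℂ V₂] [FiniteDimensional ℂ V₂]
    (ρ₁ : Representation ℂ Gal(Ω/K) V₁) (ρ₂ : Representation ℂ Gal(Ω/K) V₂)
    (h₁ : {𝔭 | ¬ Unram ρ₁ 𝔭}.Finite) (h₂ : {𝔭 | ¬ Unram ρ₂ 𝔭}.Finite)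
    (hb₁ : Bdd (ctr (RingHom.id ℂ) ρ₁)) (hb₂ : Bdd (ctr (RingHom.id ℂ) ρ₂))
    (h : ∀ σ σ' : Gal(Ω/K), (∀ x : Ω, t (σ' x) = σ (t x)) → ρ₂.character σ = ρ₁.character σ') :
    mu 𝒰 (ctr (RingHom.id ℂ) ρ₂) = mu 𝒰 (ctr (RingHom.id ℂ) ρ₁) := by
  rw [← mu_conjP K t h𝒰 hb₁]
  refine mu_congr_finite h𝒰 hb₂ ?_ ?_
  · obtain ⟨B, hB⟩ := hb₁
    exact ⟨B, fun v => hB _⟩
  · refine (h₂.union (h₁.preimage (conjP K t).injective.injOn)).subset fun v hv => ?_
    by_contra hcon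
    simp only [Set.mem_union, Set.mem_setOf_eq, Set.mem_preimage, not_or, not_not] at hcon
    apply hv
    obtain ⟨D', hD'⟩ := exists_conj_frob K t v (frobeniusAt Ω v)
    unfold ctr
    rw [conjP_nrm, sum_eigs_of_frob K ρ₂ hcon.1 (frobeniusAt Ω v),
      sum_eigs_of_frob K ρ₁ hcon.2 D', h _ _ hD']

end Pool.Agent.H3.TF
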