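import Mathlib
import Pool.Agent.H3.TF.Comm
import Pool.Agent.H3.Artin.TraceBound

/-!
# TwistedForms, TF-3: a representation modulo a subrepresentation; the mean

`cl : A → V` is an injective `G`-map, `F` on `V` and `h` on `A` are compatible with `cl` and commute
with `G`; the eigenvalues of `F` have absolute value at most one.

`pair_ineq`: apply `comm_ineq` to `U = V ⧸ range cl`.  Traces: `tr(τ(g)F | V) = tr(τA(g)h | A) +
tr(τ(g)F | U)` (choose a complement of `range cl`, or use a quotient trace formula; compare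
`trace_sub_bound` in `Pool/Agent/H3/Artin/TraceBound.lean`), the eigenvalues of `F` on `U` are
eigenvalues of `F` on `V` (see the end of the proof of `trace_sub_bound`); with `F = 1`, `h = 1` the
trace formula gives `χ_U = χ_V - χ_A`, so `dim U = dim V - dim A` and, taking means,
`dim U^G = dim V^G - dim A^G`.

`mean_trace`: the mean over `g` of `tr(τ(g) F)` is the trace of `F` on the invariants: with
`P = (1/#G) ∑ τ(g)`, a projection onto `V^G` (`Representation.averageMap`,
`Representation.isProj_averageMap`), it is `tr(P F)`; write `P = j ∘ p`, `j` the inclusion of `V^G`,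
and use `LinearMap.trace_comp_comm'`.
-/

open Module

namespace Pool.Agent.H3.TF

variable {G : Type*} [Group G] [Fintype G] {ι : Type*} [Fintype ι]
variable {V A : Type*} [AddCommGroup V] [Module ℂ V] [FiniteDimensional ℂ V]
  [AddCommGroup A] [Module ℂ A] [FiniteDimensional ℂ A]

section PairAux

variable {V A : Type*} [AddCommGroup V] [Module ℂ V] [FiniteDimensional ℂ V]
  [AddCommGroup A] [Module ℂ A] [FiniteDimensional ℂ A]

/-- trace formula for a quotient -/
theorem pair_trace_mapQ (cl : A →ₗ[ℂ] V) (hcl : Function.Injective cl) (f : V →ₗ[ℂ] V)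
    (h : A →ₗ[ℂ] A) (hf : ∀ x, f (cl x) = cl (h x))
    (hle : LinearMap.range cl ≤ (LinearMap.range cl).comap f) :
    LinearMap.trace ℂ V f = LinearMap.trace ℂ A h +
      LinearMap.trace ℂ (V ⧸ LinearMap.range cl)
        ((LinearMap.range cl).mapQ (LinearMap.range cl) f hle) := by
  set N := LinearMap.range cl with hN
  obtain ⟨s, hs⟩ := N.mkQ.exists_rightInverse_of_surjective (LinearMap.range_eq_top.mpr N.mkQ_surjective)
  have hs' : ∀ x, N.mkQ (s x) = x := fun x => LinearMap.congr_fun hs x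
  let e : A ≃ₗ[ℂ] N := LinearEquiv.ofInjective cl hcl
  have he : ∀ a, ((e a : N) : V) = cl a := fun a => rfl
  let d : V →ₗ[ℂ] V := LinearMap.id - s ∘ₗ N.mkQ
  have hd : ∀ v, d v ∈ N := by
    intro v
    rw [← Submodule.Quotient.mk_eq_zero, ← Submodule.mkQ_apply]
    change N.mkQ (v - s (N.mkQ v)) = 0
    rw [map_sub, hs', sub_self]
  let r : V →ₗ[ℂ] A := e.symm.toLinearMap ∘ₗ d.codRestrict N hd
  have hr : ∀ v, cl (r v) = v - s (N.mkQ v) := by
    intro v
    have h1 : ((e (r v) : N) : V) = d v := by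
      change ((e (e.symm (d.codRestrict N hd v)) : N) : V) = d v
      rw [LinearEquiv.apply_symm_apply]
      rfl
    rw [← he, h1]
    rfl
  have hrcl : ∀ a, r (cl a) = a := by
    intro a
    apply hcl
    rw [hr]
    have : N.mkQ (cl a) = 0 := by
      rw [Submodule.mkQ_apply, Submodule.Quotient.mk_eq_zero]
      exact ⟨a, rfl⟩
    rw [this, map_zero, sub_zero]
  have e1 : f = (f ∘ₗ cl) ∘ₗ r + (f ∘ₗ s) ∘ₗ N.mkQ := by
    ext v
    simp only [LinearMap.add_apply, LinearMap.comp_apply]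
    rw [← map_add, hr, sub_add_cancel]
  have e2 : LinearMap.trace ℂ V ((f ∘ₗ cl) ∘ₗ r) = LinearMap.trace ℂ A h := by
    rw [LinearMap.trace_comp_comm']
    congr 1
    ext a
    simp only [LinearMap.comp_apply]
    rw [hf, hrcl]
  have e3 : LinearMap.trace ℂ V ((f ∘ₗ s) ∘ₗ N.mkQ) =
      LinearMap.trace ℂ (V ⧸ N) (N.mapQ N f hle) := by
    rw [LinearMap.trace_comp_comm']
    congr 1
    apply LinearMap.ext
    intro x
    change N.mkQ (f (s x)) = N.mapQ N f hle x
    conv_rhs => rw [← hs' x]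
    rw [Submodule.mkQ_apply, Submodule.mkQ_apply, Submodule.mapQ_apply]
  conv_lhs => rw [e1]
  rw [map_add, e2, e3]

theorem pair_roots_mapQ (N : Submodule ℂ V) (f : V →ₗ[ℂ] V) (hle : N ≤ N.comap f) (z : ℂ)
    (hz : z ∈ (N.mapQ N f hle).charpoly.roots) : z ∈ f.charpoly.roots := by
  rw [Artin.mem_roots_charpoly] at hz ⊢
  obtain ⟨x, hx0, hx⟩ := hz
  by_contra hcon
  push Not at hcon
  have hinj : ∀ v : V, f v - z • v = 0 → v = 0 := by
    intro v hv
    by_contra hv0
    exact hcon v hv0 (sub_eq_zero.mp hv)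
  let k : N →ₗ[ℂ] N := (f.restrict hle) - z • LinearMap.id
  have hk : ∀ u : N, ((k u : N) : V) = f u - z • (u : V) := fun u => rfl
  have hkinj : Function.Injective k := by
    rw [← LinearMap.ker_eq_bot, LinearMap.ker_eq_bot']
    intro u hu
    apply Subtype.ext
    apply hinj
    rw [← hk, hu]
    rfl
  have hksurj : Function.Surjective k := LinearMap.surjective_of_injective hkinj
  obtain ⟨v, rfl⟩ := N.mkQ_surjective x
  rw [Submodule.mkQ_apply, Submodule.mapQ_apply, ← Submodule.Quotient.mk_smul,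
    Submodule.Quotient.eq] at hx
  obtain ⟨u, hu⟩ := hksurj ⟨_, hx⟩
  have h3 : f u - z • (u : V) = f v - z • v := by
    rw [← hk, hu]
  have h4 : f (v - u) - z • (v - u) = 0 := by
    rw [map_sub, smul_sub, sub_sub_sub_comm, ← h3, sub_self]
  have h5 := sub_eq_zero.mp (hinj _ h4)
  apply hx0
  rw [h5, Submodule.mkQ_apply, Submodule.Quotient.mk_eq_zero]
  exact u.2

end PairAux

theorem pair_ineq (τ : Representation ℂ G V) (τA : Representation ℂ G A) (cl : A →ₗ[ℂ] V)
    (hcl : Function.Injective cl) (hclτ : ∀ g x, cl (τA g x) = τ g (cl x))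
    (F : V →ₗ[ℂ] V) (hF : ∀ g, F ∘ₗ τ g = τ g ∘ₗ F) (h : A →ₗ[ℂ] A)
    (hFh : ∀ x, F (cl x) = cl (h x))
    (hw : ∀ z ∈ F.charpoly.roots, ‖z‖ ≤ 1) (c : ι → ℝ) (g : ι → G) :
    ‖∑ i, (c i : ℂ) * ((LinearMap.trace ℂ V (τ (g i) ∘ₗ F) - LinearMap.trace ℂ A (τA (g i) ∘ₗ h)) -
      (∑ x, (LinearMap.trace ℂ V (τ x ∘ₗ F) - LinearMap.trace ℂ A (τA x ∘ₗ h))) /
        Fintype.card G)‖ ^ 2 ≤
      (((finrank ℂ V : ℝ) - finrank ℂ A) - ((finrank ℂ τ.invariants : ℝ) -
        finrank ℂ τA.invariants)) *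
        QQ (fun x => (τ.character x - τA.character x).re)
          ((finrank ℂ τ.invariants : ℝ) - finrank ℂ τA.invariants) c g := by
  classical
  set N := LinearMap.range cl with hN
  have hτN : ∀ x, N ≤ N.comap (τ x) := by
    rintro x _ ⟨a, rfl⟩
    exact ⟨τA x a, hclτ x a⟩
  have hFN : N ≤ N.comap F := by
    rintro _ ⟨a, rfl⟩
    exact ⟨h a, (hFh a).symm⟩
  let τU : Representation ℂ G (V ⧸ N) := τ.quotient N hτN
  have hτU : ∀ x, τU x = N.mapQ N (τ x) (hτN x) := fun x => rfl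
  let FU : (V ⧸ N) →ₗ[ℂ] (V ⧸ N) := N.mapQ N F hFN
  have hcomp : ∀ x, N ≤ N.comap (τ x ∘ₗ F) := by
    intro x v hv
    exact hτN x (hFN hv)
  have htr : ∀ x, LinearMap.trace ℂ (V ⧸ N) (τU x ∘ₗ FU) =
      LinearMap.trace ℂ V (τ x ∘ₗ F) - LinearMap.trace ℂ A (τA x ∘ₗ h) := by
    intro x
    have h1 := pair_trace_mapQ cl hcl (τ x ∘ₗ F) (τA x ∘ₗ h) (fun a => by
      simp only [LinearMap.comp_apply]
      rw [hFh, hclτ]) (hcomp x)
    have h2 : τU x ∘ₗ FU = N.mapQ N (τ x ∘ₗ F) (hcomp x) := by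
      apply LinearMap.ext
      intro y
      obtain ⟨v, rfl⟩ := N.mkQ_surjective y
      rfl
    rw [h2, h1]
    ring
  have hch : ∀ x, τU.character x = τ.character x - τA.character x := by
    intro x
    have h1 := pair_trace_mapQ cl hcl (τ x) (τA x) (fun a => (hclτ x a).symm) (hτN x)
    change LinearMap.trace ℂ (V ⧸ N) (N.mapQ N (τ x) (hτN x)) =
      LinearMap.trace ℂ V (τ x) - LinearMap.trace ℂ A (τA x)
    rw [h1]
    ring
  have hcard : (Nat.card G : ℂ) ≠ 0 := by exact_mod_cast Nat.card_pos.ne'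
  let _ : Invertible (Nat.card G : ℂ) := invertibleOfNonzero hcard
  have hinv : (finrank ℂ τU.invariants : ℝ) = (finrank ℂ τ.invariants : ℝ) -
      finrank ℂ τA.invariants := by
    have h1 := τU.card_inv_mul_sum_char_eq_finrank
    have h2 := τ.card_inv_mul_sum_char_eq_finrank
    have h3 := τA.card_inv_mul_sum_char_eq_finrank
    have h4 : (finrank ℂ τU.invariants : ℂ) = (finrank ℂ τ.invariants : ℂ) -
        finrank ℂ τA.invariants := by
      rw [← h1, ← h2, ← h3, ← mul_sub, ← Finset.sum_sub_distrib]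
      congr 1
      exact Finset.sum_congr rfl fun x _ => hch x
    exact_mod_cast h4
  have hdim : (finrank ℂ (V ⧸ N) : ℝ) = (finrank ℂ V : ℝ) - finrank ℂ A := by
    have h1 := Submodule.finrank_quotient_add_finrank N
    have h2 : finrank ℂ N = finrank ℂ A := LinearMap.finrank_range_of_inj hcl
    rw [h2] at h1
    rw [← h1]
    push_cast
    ring
  have key := comm_ineq τU FU (fun x => by
    apply LinearMap.ext
    intro y
    obtain ⟨v, rfl⟩ := N.mkQ_surjective y
    change N.mkQ (F (τ x v)) = N.mkQ (τ x (F v))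
    congr 1
    exact LinearMap.congr_fun (hF x) v) (fun z hz => hw z (pair_roots_mapQ N F hFN z hz)) c g
  rw [hinv, hdim] at key
  simp only [htr, hch] at key
  exact key

theorem mean_trace (τ : Representation ℂ G V) (F : V →ₗ[ℂ] V) (hF : ∀ g, F ∘ₗ τ g = τ g ∘ₗ F)
    (F₀ : τ.invariants →ₗ[ℂ] τ.invariants) (hF₀ : ∀ x, (F₀ x : V) = F x) :
    (∑ x, LinearMap.trace ℂ V (τ x ∘ₗ F)) / Fintype.card G =
      LinearMap.trace ℂ τ.invariants F₀ := by
  have hcard : (Fintype.card G : ℂ) ≠ 0 := by exact_mod_cast Fintype.card_pos.ne'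
  let P : V →ₗ[ℂ] V := (Fintype.card G : ℂ)⁻¹ • ∑ x : G, τ x
  have hPapp : ∀ v, P v = (Fintype.card G : ℂ)⁻¹ • ∑ x : G, τ x v := by
    intro v
    simp [P, LinearMap.smul_apply, LinearMap.sum_apply]
  have hP : ∀ v, P v ∈ τ.invariants := by
    intro v
    rw [Representation.mem_invariants]
    intro y
    rw [hPapp, map_smul, map_sum]
    congr 1
    rw [← Equiv.sum_comp (Equiv.mulLeft y) (fun x => τ x v)]
    refine Finset.sum_congr rfl fun x _ => ?_
    rw [Equiv.coe_mulLeft, map_mul]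
    rfl
  have hP2 : ∀ v ∈ τ.invariants, P v = v := by
    intro v hv
    rw [Representation.mem_invariants] at hv
    rw [hPapp, Finset.sum_congr rfl fun x _ => hv x, Finset.sum_const, Finset.card_univ,
      ← Nat.cast_smul_eq_nsmul ℂ, smul_smul, inv_mul_cancel₀ hcard, one_smul]
  let p : V →ₗ[ℂ] τ.invariants := P.codRestrict τ.invariants hP
  have h1 : (∑ x, LinearMap.trace ℂ V (τ x ∘ₗ F)) / Fintype.card G =
      LinearMap.trace ℂ V (τ.invariants.subtype ∘ₗ (p ∘ₗ F)) := by
    have e : τ.invariants.subtype ∘ₗ (p ∘ₗ F) = (Fintype.card G : ℂ)⁻¹ • ∑ x : G, (τ x ∘ₗ F) := by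
      apply LinearMap.ext
      intro v
      change P (F v) = _
      rw [hPapp, LinearMap.smul_apply, LinearMap.sum_apply]
      rfl
    rw [e, map_smul, map_sum, smul_eq_mul, div_eq_inv_mul]
  rw [h1, LinearMap.trace_comp_comm']
  congr 1
  apply LinearMap.ext
  intro x
  apply Subtype.ext
  change P (F x) = (F₀ x : V)
  rw [← hF₀, hP2 _ (F₀ x).2]

end Pool.Agent.H3.TF
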