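import Mathlib
import Pool.Agent.H3.TF.Ineq
import Pool.Agent.H3.Artin.MeanChar

/-!
# TwistedForms, TF-4: averaging the quadratic form

`QB f f₀ c g` is the average of `QQ f f₀ c` over the conjugates of `g` in `G^ι`.  It is a class
function on `G^ι`, invariant under inversion (for `f` with `f(xy) = f(yx)`:
`QQ(g⁻¹) = ∑ c_i c_j (f(g_j g_i⁻¹) - f₀) = QQ(g)` after exchanging `i` and `j`), and its mean over
`G^ι` is `(f(1) - f₀) ∑ c_i²` if `f₀` is the mean of `f`: the mean over `g` of `f(g_j⁻¹ g_i)` is `f₀`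
for `i ≠ j` and `f(1)` for `i = j`.

`mean_QB`: if `ξ : Gal(Ω/k) → G^ι` is surjective and trivial on `Gal(Ω/M)`, the function
`QB(ξ(Frob))` has this mean: `chebotarev_sym` for `M` and the function induced on `Gal(M/k)`
(`ξ` factors through `Gal(M/k)`, compare `exists_descend` and `mean_character` in
`Pool/Agent/H3/Artin/MeanChar.lean`, and `sum_comp_surjective` in `Pool/Agent/H3/Cheb/Lower.lean`
for the sum over `Gal(M/k)`).
-/

open Module NumberField IsDedekindDomain Filter Topology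

namespace Pool.Agent.H3.TF

open TatePole Cheb Artin

section Avg

variable {G : Type*} [Group G] [Fintype G] {ι : Type*} [Fintype ι] [DecidableEq ι]

/-- the average of `QQ` over the conjugates of `g` in `G^ι` -/
noncomputable def QB (f : G → ℝ) (f₀ : ℝ) (c : ι → ℝ) (g : ι → G) : ℝ :=
  (∑ h : ι → G, QQ f f₀ c (h * g * h⁻¹)) / Fintype.card (ι → G)

lemma QB_conj (f : G → ℝ) (f₀ : ℝ) (c : ι → ℝ) (g y : ι → G) :
    QB f f₀ c (y * g * y⁻¹) = QB f f₀ c g := by
  unfold QB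
  congr 1
  rw [← Equiv.sum_comp (Equiv.mulRight y) (fun h => QQ f f₀ c (h * g * h⁻¹))]
  refine Finset.sum_congr rfl fun h _ => ?_
  rw [Equiv.coe_mulRight]
  congr 1
  group

omit [Fintype G] [DecidableEq ι] in
lemma QQ_inv (f : G → ℝ) (hf : ∀ x y, f (x * y) = f (y * x)) (f₀ : ℝ) (c : ι → ℝ) (g : ι → G) :
    QQ f f₀ c g⁻¹ = QQ f f₀ c g := by
  unfold QQ
  rw [Finset.sum_comm]
  refine Finset.sum_congr rfl fun i _ => Finset.sum_congr rfl fun j _ => ?_
  rw [Pi.inv_apply, Pi.inv_apply, inv_inv, hf (g i), mul_comm (c j) (c i)]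

lemma QB_inv (f : G → ℝ) (hf : ∀ x y, f (x * y) = f (y * x)) (f₀ : ℝ) (c : ι → ℝ) (g : ι → G) :
    QB f f₀ c g⁻¹ = QB f f₀ c g := by
  unfold QB
  congr 1
  refine Finset.sum_congr rfl fun h _ => ?_
  rw [← QQ_inv f hf f₀ c (h * g * h⁻¹)]
  congr 1
  group

lemma card_ne_zero_real (α : Type*) [Fintype α] [Nonempty α] : (Fintype.card α : ℝ) ≠ 0 := by
  exact_mod_cast Fintype.card_ne_zero

lemma sum_off_diag (f : G → ℝ) (i j : ι) (hij : i ≠ j) :
    (Fintype.card G : ℝ) * ∑ g : ι → G, f ((g j)⁻¹ * g i) = Fintype.card (ι → G) * ∑ x, f x := by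
  have h1 : ∀ x : G, ∑ g : ι → G, f ((g j)⁻¹ * g i) = ∑ g : ι → G, f ((g j)⁻¹ * g i * x) := by
    intro x
    rw [← Equiv.sum_comp (Equiv.mulRight (Pi.mulSingle i x : ι → G)) (fun g => f ((g j)⁻¹ * g i))]
    refine Finset.sum_congr rfl fun g _ => ?_
    have e1 : ((Equiv.mulRight (Pi.mulSingle i x : ι → G)) g) i = g i * x := by
      change g i * (Pi.mulSingle i x : ι → G) i = _
      rw [Pi.mulSingle_eq_same]
    have e2 : ((Equiv.mulRight (Pi.mulSingle i x : ι → G)) g) j = g j := by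
      change g j * (Pi.mulSingle i x : ι → G) j = _
      rw [Pi.mulSingle_eq_of_ne (Ne.symm hij), mul_one]
    rw [e1, e2, mul_assoc]
  have h2 : ∑ x : G, ∑ g : ι → G, f ((g j)⁻¹ * g i) =
      (Fintype.card G : ℝ) * ∑ g : ι → G, f ((g j)⁻¹ * g i) := by
    rw [Finset.sum_const, Finset.card_univ, nsmul_eq_mul]
  rw [← h2, Finset.sum_congr rfl fun x _ => h1 x, Finset.sum_comm]
  have h3 : ∀ g : ι → G, ∑ x : G, f ((g j)⁻¹ * g i * x) = ∑ x, f x := fun g =>
    Equiv.sum_comp (Equiv.mulLeft ((g j)⁻¹ * g i)) f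
  rw [Finset.sum_congr rfl fun g _ => h3 g, Finset.sum_const, Finset.card_univ, nsmul_eq_mul]

lemma sum_QQ (f : G → ℝ) (f₀ : ℝ) (hf₀ : ∑ x, f x = Fintype.card G * f₀) (c : ι → ℝ) :
    ∑ g : ι → G, QQ f f₀ c g = Fintype.card (ι → G) * ((f 1 - f₀) * ∑ i, c i ^ 2) := by
  have hG := card_ne_zero_real G
  have h1 : ∀ i j : ι, ∑ g : ι → G, c i * c j * (f ((g j)⁻¹ * g i) - f₀) =
      if i = j then (Fintype.card (ι → G) : ℝ) * ((f 1 - f₀) * c i ^ 2) else 0 := by
    intro i j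
    rw [← Finset.mul_sum, Finset.sum_sub_distrib, Finset.sum_const, Finset.card_univ,
      nsmul_eq_mul]
    split_ifs with h
    · subst h
      have h2 : ∑ g : ι → G, f ((g i)⁻¹ * g i) = Fintype.card (ι → G) * f 1 := by
        simp only [inv_mul_cancel]
        rw [Finset.sum_const, Finset.card_univ, nsmul_eq_mul]
      rw [h2]
      ring
    · have h2 := sum_off_diag f i j h
      rw [hf₀] at h2
      have h3 : ∑ g : ι → G, f ((g j)⁻¹ * g i) = Fintype.card (ι → G) * f₀ := by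
        apply mul_left_cancel₀ hG
        rw [h2]
        ring
      rw [h3]
      ring
  unfold QQ
  rw [Finset.sum_comm]
  simp_rw [Finset.sum_comm (s := (Finset.univ : Finset (ι → G)))]
  simp_rw [h1]
  rw [Finset.mul_sum, Finset.mul_sum]
  refine Finset.sum_congr rfl fun i _ => ?_
  rw [Finset.sum_ite_eq, if_pos (Finset.mem_univ i)]

lemma sum_QB (f : G → ℝ) (f₀ : ℝ) (hf₀ : ∑ x, f x = Fintype.card G * f₀) (c : ι → ℝ) :
    (∑ g : ι → G, QB f f₀ c g) / Fintype.card (ι → G) = (f 1 - f₀) * ∑ i, c i ^ 2 := by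
  have hN := card_ne_zero_real (ι → G)
  have h1 : ∑ g : ι → G, QB f f₀ c g = ∑ g : ι → G, QQ f f₀ c g := by
    unfold QB
    rw [← Finset.sum_div, Finset.sum_comm]
    have h2 : ∀ h : ι → G, ∑ g : ι → G, QQ f f₀ c (h * g * h⁻¹) = ∑ g : ι → G, QQ f f₀ c g := by
      intro h
      exact Equiv.sum_comp ((Equiv.mulLeft h).trans (Equiv.mulRight h⁻¹)) (fun g => QQ f f₀ c g)
    rw [Finset.sum_congr rfl fun h _ => h2 h, Finset.sum_const, Finset.card_univ, nsmul_eq_mul,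
      mul_div_cancel_left₀ _ hN]
  rw [h1, sum_QQ f f₀ hf₀ c, mul_div_cancel_left₀ _ hN]

/-- averaging an inequality whose left hand side is conjugation invariant -/
lemma le_QB (f : G → ℝ) (f₀ : ℝ) (c : ι → ℝ) (g : ι → G) (X B : ℝ)
    (h : ∀ y : ι → G, X ≤ B * QQ f f₀ c (y * g * y⁻¹)) : X ≤ B * QB f f₀ c g := by
  have hN : (0 : ℝ) < Fintype.card (ι → G) := by exact_mod_cast Fintype.card_pos
  unfold QB
  rw [mul_div_assoc', le_div_iff₀ hN, Finset.mul_sum]
  calc X * Fintype.card (ι → G) = ∑ _y : ι → G, X := by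
        rw [Finset.sum_const, Finset.card_univ, nsmul_eq_mul, mul_comm]
    _ ≤ _ := Finset.sum_le_sum fun y _ => h y

end Avg

section Mean

variable {k : Type*} [Field k] [NumberField k] {Ω : Type*} [Field Ω] [Algebra k Ω] [IsGalois k Ω]
variable [IsAlgClosed Ω]
variable {G : Type*} [Group G] [Fintype G] {ι : Type*} [Fintype ι] [DecidableEq ι]

theorem mean_QB (M : IntermediateField k Ω) [FiniteDimensional k M] [Normal k M]
    (ξ : Gal(Ω/k) →* (ι → G)) (hξ : Function.Surjective ξ) (hM : ∀ σ ∈ M.fixingSubgroup, ξ σ = 1)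
    (f : G → ℝ) (hf : ∀ x y, f (x * y) = f (y * x)) (f₀ : ℝ)
    (hf₀ : ∑ x, f x = Fintype.card G * f₀) (c : ι → ℝ) :
    HasMean (𝓝[>] 1) (fun 𝔭 : HeightOneSpectrum (𝓞 k) => QB f f₀ c (ξ (frobeniusAt Ω 𝔭).φ⁻¹))
      ((f 1 - f₀) * ∑ i, c i ^ 2) := by
  classical
  have hs : Function.Surjective (AlgEquiv.restrictNormalHom (F := k) (K₁ := Ω) M) :=
    AlgEquiv.restrictNormalHom_surjective Ω
  set π : Gal(Ω/k) →* Gal(M/k) := AlgEquiv.restrictNormalHom (F := k) (K₁ := Ω) M with hπ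
  have hker : π.ker ≤ ξ.ker := by
    intro σ hσ
    rw [MonoidHom.mem_ker] at hσ ⊢
    exact hM σ (restrictNormal_eq_one hσ)
  let ξ' : Gal(M/k) →* (ι → G) :=
    π.liftOfRightInverse (Function.surjInv hs) (Function.rightInverse_surjInv hs) ⟨ξ, hker⟩
  have hξ' : ∀ σ, ξ' (π σ) = ξ σ := fun σ =>
    π.liftOfRightInverse_comp_apply (Function.surjInv hs) (Function.rightInverse_surjInv hs)
      ⟨ξ, hker⟩ σ
  have hξ's : Function.Surjective ξ' := by
    intro g
    obtain ⟨σ, hσ⟩ := hξ g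
    exact ⟨π σ, by rw [hξ', hσ]⟩
  have h1 := chebotarev_sym M (fun x => QB f f₀ c (ξ' x)) (fun y g => by
    have := QB_conj f f₀ c (ξ' g) (ξ' y⁻¹)
    rw [← this]
    congr 1
    rw [map_mul, map_mul, map_inv, inv_inv]) (fun x => by
    rw [map_inv, QB_inv f hf])
  rw [sum_comp_surjective ξ' hξ's (fun g => QB f f₀ c g), sum_QB f f₀ hf₀ c] at h1
  convert h1 using 2 with 𝔭
  rw [map_inv, QB_inv f hf, ← hξ']

end Mean

end Pool.Agent.H3.TF
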