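import Mathlib
import Pool.Agent.H3.TF.QAvg

/-!
# TwistedForms: the mean of the averaged quadratic form under pairwise independence
-/

open Module NumberField IsDedekindDomain Filter Topology

namespace Pool.Agent.H3.TF

open TatePole Cheb Artin

section Avg

variable {G : Type*} [Group G] [Fintype G] {ι : Type*} [Fintype ι] [DecidableEq ι]

lemma sum_mul_const (f : G → ℝ) (a b : G) : ∑ g, f (a * g⁻¹ * b) = ∑ x, f x := by
  have h1 : ∀ g : G, a * g⁻¹ * b =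
      ((Equiv.inv G).trans ((Equiv.mulLeft a).trans (Equiv.mulRight b))) g := fun g => rfl
  simp_rw [h1]
  exact Equiv.sum_comp _ f

lemma sum_mul_const' (f : G → ℝ) (a b : G) : ∑ g, f (a * g * b) = ∑ x, f x := by
  have h1 : ∀ g : G, a * g * b = ((Equiv.mulLeft a).trans (Equiv.mulRight b)) g := fun g => rfl
  simp_rw [h1]
  exact Equiv.sum_comp _ f

/-- the sum of one term over a group mapping to `G^ι` -/
lemma sum_pair_term {Q : Type*} [Group Q] [Fintype Q] (ξ : Q →* (ι → G)) (i j : ι)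
    (hp : (∀ g : G, ∃ σ, ξ σ i = 1 ∧ ξ σ j = g) ∨ (∀ g : G, ∃ σ, ξ σ j = 1 ∧ ξ σ i = g))
    (f : G → ℝ) (f₀ : ℝ) (hf₀ : ∑ x, f x = Fintype.card G * f₀) (h : ι → G) :
    ∑ q : Q, f (((h * ξ q * h⁻¹) j)⁻¹ * (h * ξ q * h⁻¹) i) = Fintype.card Q * f₀ := by
  have hG := card_ne_zero_real G
  set F : Q → ℝ := fun q => f (((h * ξ q * h⁻¹) j)⁻¹ * (h * ξ q * h⁻¹) i) with hF
  have key : ∃ κ : G → Q, ∀ q, ∑ g, F (q * κ g) = ∑ x, f x := by
    rcases hp with hp | hp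
    · choose κ hκ1 hκ2 using hp
      refine ⟨κ, fun q => ?_⟩
      rw [← sum_mul_const f (h j) (((ξ q j)⁻¹ * (h j)⁻¹) * (h * ξ q * h⁻¹) i)]
      refine Finset.sum_congr rfl fun g _ => ?_
      rw [hF]
      beta_reduce
      congr 1
      have e1 : (h * ξ (q * κ g) * h⁻¹) i = (h * ξ q * h⁻¹) i := by
        rw [map_mul]
        simp only [Pi.mul_apply, hκ1, mul_one]
      have e2 : (h * ξ (q * κ g) * h⁻¹) j = h j * (ξ q j * g) * (h j)⁻¹ := by
        rw [map_mul]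
        simp only [Pi.mul_apply, Pi.inv_apply, hκ2]
      rw [e1, e2]
      group
    · choose κ hκ1 hκ2 using hp
      refine ⟨κ, fun q => ?_⟩
      rw [← sum_mul_const' f (((h * ξ q * h⁻¹) j)⁻¹ * (h i * ξ q i)) ((h i)⁻¹)]
      refine Finset.sum_congr rfl fun g _ => ?_
      rw [hF]
      beta_reduce
      congr 1
      have e1 : (h * ξ (q * κ g) * h⁻¹) j = (h * ξ q * h⁻¹) j := by
        rw [map_mul]
        simp only [Pi.mul_apply, hκ1, mul_one]
      have e2 : (h * ξ (q * κ g) * h⁻¹) i = h i * (ξ q i * g) * (h i)⁻¹ := by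
        rw [map_mul]
        simp only [Pi.mul_apply, Pi.inv_apply, hκ2]
      rw [e1, e2]
      group
  obtain ⟨κ, hκ⟩ := key
  have h1 : ∀ g : G, ∑ q, F q = ∑ q, F (q * κ g) := fun g =>
    (Equiv.sum_comp (Equiv.mulRight (κ g)) F).symm
  have h2 : (Fintype.card G : ℝ) * ∑ q, F q = ∑ g : G, ∑ q, F (q * κ g) := by
    rw [← Finset.sum_congr rfl fun g _ => h1 g, Finset.sum_const, Finset.card_univ, nsmul_eq_mul]
  rw [Finset.sum_comm, Finset.sum_congr rfl fun q _ => hκ q, Finset.sum_const, Finset.card_univ,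
    nsmul_eq_mul, hf₀] at h2
  apply mul_left_cancel₀ hG
  rw [h2]
  ring

lemma sum_QB_pair {Q : Type*} [Group Q] [Fintype Q] (ξ : Q →* (ι → G))
    (hp : ∀ i j, i ≠ j → (∀ g : G, ∃ σ, ξ σ i = 1 ∧ ξ σ j = g) ∨
      (∀ g : G, ∃ σ, ξ σ j = 1 ∧ ξ σ i = g))
    (f : G → ℝ) (f₀ : ℝ) (hf₀ : ∑ x, f x = Fintype.card G * f₀) (c : ι → ℝ) :
    (∑ q : Q, QB f f₀ c (ξ q)) / Fintype.card Q = (f 1 - f₀) * ∑ i, c i ^ 2 := by
  have hN := card_ne_zero_real (ι → G)
  have hQ := card_ne_zero_real Q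
  have h1 : ∀ (h : ι → G) (i j : ι), ∑ q : Q, c i * c j *
      (f (((h * ξ q * h⁻¹) j)⁻¹ * (h * ξ q * h⁻¹) i) - f₀) =
      if i = j then (Fintype.card Q : ℝ) * ((f 1 - f₀) * c i ^ 2) else 0 := by
    intro h i j
    rw [← Finset.mul_sum, Finset.sum_sub_distrib, Finset.sum_const, Finset.card_univ,
      nsmul_eq_mul]
    split_ifs with hij
    · subst hij
      simp only [inv_mul_cancel]
      rw [Finset.sum_const, Finset.card_univ, nsmul_eq_mul]
      ring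
    · rw [sum_pair_term ξ i j (hp i j hij) f f₀ hf₀ h]
      ring
  have h2 : ∀ h : ι → G, ∑ q : Q, QQ f f₀ c (h * ξ q * h⁻¹) =
      Fintype.card Q * ((f 1 - f₀) * ∑ i, c i ^ 2) := by
    intro h
    unfold QQ
    rw [Finset.sum_comm]
    simp_rw [Finset.sum_comm (s := (Finset.univ : Finset Q))]
    simp_rw [h1]
    rw [Finset.mul_sum, Finset.mul_sum]
    refine Finset.sum_congr rfl fun i _ => ?_
    rw [Finset.sum_ite_eq, if_pos (Finset.mem_univ i)]
  have h3 : ∑ q : Q, QB f f₀ c (ξ q) = Fintype.card Q * ((f 1 - f₀) * ∑ i, c i ^ 2) := by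
    unfold QB
    rw [← Finset.sum_div, Finset.sum_comm, Finset.sum_congr rfl fun h _ => h2 h, Finset.sum_const,
      Finset.card_univ, nsmul_eq_mul, mul_div_cancel_left₀ _ hN]
  rw [h3, mul_div_cancel_left₀ _ hQ]

end Avg

section Mean

variable {k : Type*} [Field k] [NumberField k] {Ω : Type*} [Field Ω] [Algebra k Ω] [IsGalois k Ω]
variable [IsAlgClosed Ω]
variable {G : Type*} [Group G] [Fintype G] {ι : Type*} [Fintype ι] [DecidableEq ι]

theorem mean_QB_pair (M : IntermediateField k Ω) [FiniteDimensional k M] [Normal k M]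
    (ξ : Gal(Ω/k) →* (ι → G))
    (hp : ∀ i j, i ≠ j → (∀ g : G, ∃ σ, ξ σ i = 1 ∧ ξ σ j = g) ∨
      (∀ g : G, ∃ σ, ξ σ j = 1 ∧ ξ σ i = g))
    (hM : ∀ σ ∈ M.fixingSubgroup, ξ σ = 1)
    (f : G → ℝ) (hf : ∀ x y, f (x * y) = f (y * x)) (f₀ : ℝ)
    (hf₀ : ∑ x, f x = Fintype.card G * f₀) (c : ι → ℝ) :
    HasMean (𝓝[>] 1) (fun 𝔭 : HeightOneSpectrum (𝓞 k) => QB f f₀ c (ξ (frobeniusAt Ω 𝔭).φ⁻¹))
      ((f 1 - f₀) * ∑ i, c i ^ 2) := by
  classical
  have hs : Function.Surjective (AlgEquiv.restrictNormalHom (F := k) (K₁ := Ω) M) :=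
    AlgEquiv.restrictNormalHom_surjective Ω
  set π : Gal(Ω/k) →* Gal(M/k) := AlgEquiv.restrictNormalHom (F := k) (K₁ := Ω) M with hπ
  have hker : π.ker ≤ ξ.ker := by
    intro σ hσ
    rw [MonoidHom.mem_ker] at hσ ⊢
    exact hM σ (restrictNormal_eq_one hσ)
  let ξ' : Gal(M/k) →* (ι → G) :=
    π.liftOfRightInverse (Function.surjInv hs) (Function.rightInverse_surjInv hs) ⟨ξ, hker⟩
  have hξ' : ∀ σ, ξ' (π σ) = ξ σ := fun σ =>
    π.liftOfRightInverse_comp_apply (Function.surjInv hs) (Function.rightInverse_surjInv hs)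
      ⟨ξ, hker⟩ σ
  have hp' : ∀ i j, i ≠ j → (∀ g : G, ∃ σ, ξ' σ i = 1 ∧ ξ' σ j = g) ∨
      (∀ g : G, ∃ σ, ξ' σ j = 1 ∧ ξ' σ i = g) := by
    intro i j hij
    rcases hp i j hij with h | h
    · left
      intro g
      obtain ⟨σ, h1, h2⟩ := h g
      exact ⟨π σ, by rw [hξ', h1], by rw [hξ', h2]⟩
    · right
      intro g
      obtain ⟨σ, h1, h2⟩ := h g
      exact ⟨π σ, by rw [hξ', h1], by rw [hξ', h2]⟩
  have h1 := chebotarev_sym M (fun x => QB f f₀ c (ξ' x)) (fun y g => by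
    have := QB_conj f f₀ c (ξ' g) (ξ' y⁻¹)
    rw [← this]
    congr 1
    rw [map_mul, map_mul, map_inv, inv_inv]) (fun x => by
    rw [map_inv, QB_inv f hf])
  rw [sum_QB_pair ξ' hp' f f₀ hf₀ c] at h1
  convert h1 using 2 with 𝔭
  rw [map_inv, QB_inv f hf, ← hξ']

end Mean

end Pool.Agent.H3.TF
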