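import Mathlib
import Pool.Agent.H3.Artin.Defect

/-!
# TwistedForms, TF-5: weights of the twisted forms

`ρ' σ = τ(ξ σ) ρ σ` is the form of `ρ` twisted by `ξ : Gal(Ω/k) → G`, where `G` acts by `τ` and
commutes with `ρ`; `ξ` is trivial on `Gal(Ω/M)`.

`form_weights`: Frobenius eigenvalues of `ρ'` on inertia invariants are at most the norm.  The map
`j : V → V ⊗ (G → ℂ)`, `j v = ∑_g τ(g⁻¹) v ⊗ δ_g`, is injective and equivariant from `ρ'` to
`twist ρ χ`, where `χ` is the representation of `Gal(M/k)` on `G → ℂ` obtained from left translation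
through `ξ` (`exists_descend`): `(ρ σ ⊗ L(ξ σ)) (j v) = ∑_g ρ σ τ(g⁻¹) v ⊗ δ_{ξ(σ) g} = j(ρ' σ v)`.
So an eigenvector of `geomFrob ρ' D` gives one of `geomFrob (twist ρ χ) D` (exactly as in
`base_weights` in `Pool/Agent/H3/Artin/Defect.lean`), and `twist_weights` applies.

`sub_weights`: the same for a subrepresentation (`j` the inclusion, target `ρ` itself and
`base_weights`).
-/

open NumberField IsDedekindDomain Filter Topology Module
open scoped TensorProduct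

namespace Pool.Agent.H3.TF

open TatePole Cheb Artin

variable {k : Type*} [Field k] [NumberField k] {Ω : Type*} [Field Ω] [Algebra k Ω] [IsGalois k Ω]
variable {V : Type*} [AddCommGroup V] [Module ℂ V] [FiniteDimensional ℂ V]
variable {G : Type*} [Group G] [Fintype G]

omit [IsGalois k Ω] in
/-- an injective intertwiner carries Frobenius eigenvalues -/
theorem wt_of_inj {V₁ V₂ : Type*} [AddCommGroup V₁] [Module ℂ V₁] [FiniteDimensional ℂ V₁]
    [AddCommGroup V₂] [Module ℂ V₂] [FiniteDimensional ℂ V₂] (ρ₁ : Representation ℂ Gal(Ω/k) V₁)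
    (ρ₂ : Representation ℂ Gal(Ω/k) V₂) (j : V₁ →ₗ[ℂ] V₂) (hj : Function.Injective j)
    (heq : ∀ σ v, ρ₂ σ (j v) = j (ρ₁ σ v)) (𝔭 : HeightOneSpectrum (𝓞 k)) (D : FrobeniusAt Ω 𝔭)
    (z : ℂ) (hz : z ∈ (geomFrob ρ₁ D).charpoly.roots) : z ∈ (geomFrob ρ₂ D).charpoly.roots := by
  rw [mem_roots_charpoly] at hz ⊢
  obtain ⟨v, hv0, hv⟩ := hz
  have hv1 : ρ₁ D.φ⁻¹ (v : V₁) = z • (v : V₁) := by
    rw [← geomFrob_apply, hv]
    rfl
  refine ⟨⟨j (v : V₁), ?_⟩, ?_, ?_⟩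
  · intro σ hσ
    rw [heq, v.2 σ hσ]
  · intro h
    have h1 : j (v : V₁) = 0 := congrArg Subtype.val h
    exact hv0 (Subtype.ext (hj (h1.trans (map_zero j).symm)))
  · apply Subtype.ext
    rw [geomFrob_apply]
    change ρ₂ D.φ⁻¹ (j (v : V₁)) = z • j (v : V₁)
    rw [heq, hv1, map_smul]

/-- left translation of functions on a group -/
noncomputable def wtL (G : Type*) [Group G] : Representation ℂ G (G → ℂ) where
  toFun g := LinearMap.funLeft ℂ ℂ (fun x => g⁻¹ * x)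
  map_one' := by
    ext f x
    simp [LinearMap.funLeft_apply]
  map_mul' g h := by
    ext f x
    simp [LinearMap.funLeft_apply, mul_assoc]

theorem wtL_single [DecidableEq G] (g x : G) : wtL G g (Pi.single x 1) = Pi.single (g * x) 1 := by
  funext y
  change (Pi.single x 1 : G → ℂ) (g⁻¹ * y) = _
  rw [Pi.single_apply, Pi.single_apply]
  refine if_congr ?_ rfl rfl
  rw [inv_mul_eq_iff_eq_mul]

/-- the embedding of the twisted form -/
noncomputable def wtJ [DecidableEq G] (τ : Representation ℂ G V) : V →ₗ[ℂ] V ⊗[ℂ] (G → ℂ) :=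
  ∑ g : G, (TensorProduct.mk ℂ V (G → ℂ)).flip (Pi.single g 1) ∘ₗ τ g⁻¹

theorem wtJ_apply [DecidableEq G] (τ : Representation ℂ G V) (v : V) :
    wtJ τ v = ∑ g : G, (τ g⁻¹ v) ⊗ₜ[ℂ] (Pi.single g 1 : G → ℂ) := by
  rw [wtJ, LinearMap.sum_apply]
  rfl

theorem wtJ_injective [DecidableEq G] (τ : Representation ℂ G V) : Function.Injective (wtJ τ) := by
  have h : ∀ v, tcoord (Pi.basisFun ℂ G) 1 (wtJ τ v) = v := by
    intro v
    rw [wtJ_apply, map_sum, Finset.sum_eq_single (1 : G)]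
    · rw [tcoord_tmul, inv_one, map_one]
      simp
    · intro g _ hg
      rw [tcoord_tmul]
      simp [Pi.single_apply, Ne.symm hg]
    · intro h
      exact absurd (Finset.mem_univ _) h
  exact Function.LeftInverse.injective h

theorem form_weights {ρ : Representation ℂ Gal(Ω/k) V} (hρ : WeightsLeTwo (RingHom.id ℂ) ρ)
    (τ : Representation ℂ G V) (hτ : ∀ σ g, ρ σ ∘ₗ τ g = τ g ∘ₗ ρ σ)
    (ξ : Gal(Ω/k) →* G) (M : IntermediateField k Ω) [FiniteDimensional k M] [Normal k M]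
    (hM : ∀ σ ∈ M.fixingSubgroup, ξ σ = 1)
    (ρ' : Representation ℂ Gal(Ω/k) V) (hρ' : ∀ σ, ρ' σ = τ (ξ σ) ∘ₗ ρ σ)
    (𝔭 : HeightOneSpectrum (𝓞 k)) (D : FrobeniusAt Ω 𝔭) (z : ℂ)
    (hz : z ∈ (geomFrob ρ' D).charpoly.roots) : ‖z‖ ≤ Ideal.absNorm 𝔭.asIdeal := by
  classical
  have hs : Function.Surjective (AlgEquiv.restrictNormalHom (F := k) (K₁ := Ω) M) :=
    AlgEquiv.restrictNormalHom_surjective Ω
  obtain ⟨χ, hχ⟩ := exists_descend (AlgEquiv.restrictNormalHom (F := k) (K₁ := Ω) M) hs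
    ((wtL G).comp ξ) (fun σ hσ => by
      have h0 : σ ∈ M.fixingSubgroup := by
        rw [← IntermediateField.restrictNormalHom_ker]
        exact hσ
      have h1 := hM σ h0
      change wtL G (ξ σ) = 1
      rw [h1, map_one])
  apply twist_weights hρ M χ 𝔭 D z
  refine wt_of_inj ρ' (twist ρ χ) (wtJ τ) (wtJ_injective τ) ?_ 𝔭 D z hz
  intro σ v
  have h1 : ∀ (y : V) (f : G → ℂ), twist ρ χ σ (y ⊗ₜ[ℂ] f) = (ρ σ y) ⊗ₜ[ℂ] (wtL G (ξ σ) f) := by
    intro y f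
    have h2 : twist ρ χ σ (y ⊗ₜ[ℂ] f) =
      (ρ σ y) ⊗ₜ[ℂ] (χ (AlgEquiv.restrictNormalHom M σ) f) := rfl
    rw [h2, hχ]
    rfl
  rw [wtJ_apply, wtJ_apply, map_sum]
  rw [← Equiv.sum_comp (Equiv.mulLeft (ξ σ))
    (fun g => (τ g⁻¹ (ρ' σ v)) ⊗ₜ[ℂ] (Pi.single g 1 : G → ℂ))]
  refine Finset.sum_congr rfl fun g _ => ?_
  rw [h1, wtL_single]
  have e : τ (ξ σ * g)⁻¹ (ρ' σ v) = ρ σ (τ g⁻¹ v) := by
    rw [hρ', LinearMap.comp_apply, ← Module.End.mul_apply, ← map_mul, mul_inv_rev,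
      inv_mul_cancel_right]
    exact (DFunLike.congr_fun (hτ σ g⁻¹) v).symm
  change (ρ σ (τ g⁻¹ v)) ⊗ₜ[ℂ] (Pi.single (ξ σ * g) 1 : G → ℂ) =
    (τ (ξ σ * g)⁻¹ (ρ' σ v)) ⊗ₜ[ℂ] (Pi.single (ξ σ * g) 1 : G → ℂ)
  rw [e]

theorem sub_weights {ρ : Representation ℂ Gal(Ω/k) V} (hρ : WeightsLeTwo (RingHom.id ℂ) ρ)
    (S : Submodule ℂ V) (ρ₀ : Representation ℂ Gal(Ω/k) S) (hρ₀ : ∀ σ x, (ρ₀ σ x : V) = ρ σ x)
    (𝔭 : HeightOneSpectrum (𝓞 k)) (D : FrobeniusAt Ω 𝔭) (z : ℂ)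
    (hz : z ∈ (geomFrob ρ₀ D).charpoly.roots) : ‖z‖ ≤ Ideal.absNorm 𝔭.asIdeal := by
  apply base_weights hρ 𝔭 D z
  exact wt_of_inj ρ₀ ρ S.subtype S.subtype_injective (fun σ v => (hρ₀ σ v).symm) 𝔭 D z hz

end Pool.Agent.H3.TF
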