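import Mathlib
import Pool.Agent.H3.TF.Pair
import Pool.Agent.H3.TF.QPair
import Pool.Agent.H3.TF.Wt

/-!
# TwistedForms: the mean square inequality for the defects along an ultrafilter
-/

open NumberField IsDedekindDomain Filter Topology Module

namespace Pool.Agent.H3.TF

open TatePole Cheb Artin

section Lemmas

variable {k : Type*} [Field k] [NumberField k] {𝒰 : Ultrafilter ℝ}

lemma mu_sub (h𝒰 : (𝒰 : Filter ℝ) ≤ 𝓝[>] 1) {u w : HeightOneSpectrum (𝓞 k) → ℝ} (hu : Bdd u)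
    (hw : Bdd w) : mu 𝒰 (fun v => u v - w v) = mu 𝒰 u - mu 𝒰 w := by
  have h1 := mu_add h𝒰 hu ((Bdd.const (k := k) (-1)).mul hw)
  rw [mu_const_mul h𝒰 _ hw] at h1
  rw [sub_eq_add_neg, ← neg_one_mul (mu 𝒰 w), ← h1]
  congr 1
  funext v
  ring

lemma Bdd.sub' {u w : HeightOneSpectrum (𝓞 k) → ℝ} (hu : Bdd u) (hw : Bdd w) :
    Bdd (fun v => u v - w v) := by
  have h1 := hu.add ((Bdd.const (k := k) (-1)).mul hw)
  obtain ⟨C, hC⟩ := h1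
  refine ⟨C, fun v => ?_⟩
  have := hC v
  beta_reduce at this ⊢
  rw [show u v - w v = u v + -1 * w v by ring]
  exact this

lemma mu_sq_le (h𝒰 : (𝒰 : Filter ℝ) ≤ 𝓝[>] 1) {u : HeightOneSpectrum (𝓞 k) → ℝ} (hu : Bdd u) :
    mu 𝒰 u ^ 2 ≤ mu 𝒰 (fun v => u v ^ 2) := by
  set m := mu 𝒰 u with hm
  have hsq : Bdd (fun v => u v ^ 2) := by
    have := hu.mul hu
    obtain ⟨C, hC⟩ := this
    refine ⟨C, fun v => ?_⟩
    beta_reduce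
    rw [pow_two]
    exact hC v
  have h1 := mu_nonneg h𝒰 (u := fun v => u v ^ 2 + ((-2 * m) * u v + m ^ 2))
    (hsq.add (((Bdd.const (-2 * m)).mul hu).add (Bdd.const (m ^ 2)))) (fun v => by nlinarith [sq_nonneg (u v - m)])
  rw [mu_add h𝒰 hsq (((Bdd.const (-2 * m)).mul hu).add (Bdd.const (m ^ 2))),
    mu_add h𝒰 ((Bdd.const (-2 * m)).mul hu) (Bdd.const (m ^ 2)), mu_const_mul h𝒰 _ hu,
    mu_const h𝒰, ← hm] at h1
  nlinarith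

end Lemmas

section BddChar

variable {k : Type*} [Field k] [NumberField k] {Ω : Type*} [Field Ω] [Algebra k Ω] [IsGalois k Ω]
variable [IsAlgClosed Ω]

lemma bdd_char (M : IntermediateField k Ω) [FiniteDimensional k M] [Normal k M]
    {U : Type*} [AddCommGroup U] [Module ℂ U] [FiniteDimensional ℂ U]
    (τ : Representation ℂ Gal(Ω/k) U) (hτ : ∀ σ ∈ M.fixingSubgroup, τ σ = 1) :
    Bdd (fun 𝔭 : HeightOneSpectrum (𝓞 k) => (τ.character (frobeniusAt Ω 𝔭).φ⁻¹).re) := by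
  classical
  have hs : Function.Surjective (AlgEquiv.restrictNormalHom (F := k) (K₁ := Ω) M) :=
    AlgEquiv.restrictNormalHom_surjective Ω
  obtain ⟨τ', hτ'⟩ := exists_descend (AlgEquiv.restrictNormalHom (F := k) (K₁ := Ω) M) hs τ
    (fun σ hσ => hτ σ (restrictNormal_eq_one hσ))
  have h5 := bdd_comp (k := k) (fun g => (τ'.character g).re) (fun 𝔭 =>
    AlgEquiv.restrictNormalHom M (frobeniusAt Ω 𝔭).φ⁻¹)
  refine h5.imp fun C hC v => ?_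
  have h6 := hC v
  have h7 : τ'.character (AlgEquiv.restrictNormalHom M (frobeniusAt Ω v).φ⁻¹) =
      τ.character (frobeniusAt Ω v).φ⁻¹ := by
    unfold Representation.character
    rw [hτ']
  beta_reduce
  rw [← h7]
  exact h6

end BddChar

section Core

variable {k : Type*} [Field k] [NumberField k] {Ω : Type*} [Field Ω] [Algebra k Ω] [IsGalois k Ω]
variable {V A : Type*} [AddCommGroup V] [Module ℂ V] [FiniteDimensional ℂ V]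
  [AddCommGroup A] [Module ℂ A] [FiniteDimensional ℂ A]
variable {G : Type*} [Group G] [Fintype G] {ι : Type*} [Fintype ι]

/-- the sum of the characters of the finite group -/
lemma sum_char (τ : Representation ℂ G V) :
    ∑ x, τ.character x = (Fintype.card G : ℂ) * finrank ℂ τ.invariants := by
  classical
  have hcard : (Nat.card G : ℂ) ≠ 0 := by exact_mod_cast Nat.card_pos.ne'
  letI : Invertible (Nat.card G : ℂ) := invertibleOfNonzero hcard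
  have h3 := τ.card_inv_mul_sum_char_eq_finrank
  rw [← h3, ← Nat.card_eq_fintype_card, mul_inv_cancel_left₀ hcard]

lemma unram_form {ρ : Representation ℂ Gal(Ω/k) V} (τ : Representation ℂ G V)
    (ξ : Gal(Ω/k) →* G) (M : IntermediateField k Ω)
    (hM : ∀ σ ∈ M.fixingSubgroup, ξ σ = 1)
    (ρ' : Representation ℂ Gal(Ω/k) V) (hρ' : ∀ σ, ρ' σ = τ (ξ σ) ∘ₗ ρ σ)
    {𝔭 : HeightOneSpectrum (𝓞 k)} (h : Unram ρ 𝔭)
    (hr : ∀ Q : Ideal (𝓞 Ω), Q.IsPrime → Q.under (𝓞 k) = 𝔭.asIdeal →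
      ∀ σ ∈ Q.inertia Gal(Ω/k), σ ∈ M.fixingSubgroup) : Unram ρ' 𝔭 := by
  intro Q hQ hQ2 σ hσ
  rw [hρ', h Q hQ hQ2 σ hσ, hM σ (hr Q hQ hQ2 σ hσ), map_one]
  rfl

lemma unram_sub {ρ : Representation ℂ Gal(Ω/k) V} (S : Submodule ℂ V)
    (ρ₀ : Representation ℂ Gal(Ω/k) S) (hρ₀ : ∀ σ x, (ρ₀ σ x : V) = ρ σ x)
    {𝔭 : HeightOneSpectrum (𝓞 k)} (h : Unram ρ 𝔭) : Unram ρ₀ 𝔭 := by
  intro Q hQ hQ2 σ hσ
  ext x
  rw [hρ₀, h Q hQ hQ2 σ hσ]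
  rfl

variable [IsAlgClosed Ω]

theorem core_ultra {𝒰 : Ultrafilter ℝ} (h𝒰 : (𝒰 : Filter ℝ) ≤ 𝓝[>] 1)
    (ρ : Representation ℂ Gal(Ω/k) V) (hρ : WeightsLeTwo (RingHom.id ℂ) ρ)
    (α : Representation ℂ Gal(Ω/k) A) (L : IntermediateField k Ω) [FiniteDimensional k L]
    [Normal k L] (hα : ∀ σ ∈ L.fixingSubgroup, α σ = 1)
    (ω : Gal(Ω/k) →* ℂ)
    (hω : {𝔭 : HeightOneSpectrum (𝓞 k) | ω (frobeniusAt Ω 𝔭).φ⁻¹ ≠ Ideal.absNorm 𝔭.asIdeal}.Finite)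
    (τ : Representation ℂ G V) (hτ : ∀ σ g, ρ σ ∘ₗ τ g = τ g ∘ₗ ρ σ)
    (τA : Representation ℂ G A)
    (cl : A →ₗ[ℂ] V) (hcl : Function.Injective cl)
    (hclω : ∀ σ a, ρ σ (cl a) = ω σ • cl (α σ a)) (hclτ : ∀ g x, cl (τA g x) = τ g (cl x))
    (M : IntermediateField k Ω) [FiniteDimensional k M] [Normal k M]
    (ξ : ι → Gal(Ω/k) →* G) (hM : ∀ i, ∀ σ ∈ M.fixingSubgroup, ξ i σ = 1)
    (hs : ∀ i j, i ≠ j → (∀ g : G, ∃ σ, ξ i σ = 1 ∧ ξ j σ = g) ∨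
      (∀ g : G, ∃ σ, ξ j σ = 1 ∧ ξ i σ = g))
    (ρ' : ι → Representation ℂ Gal(Ω/k) V) (hρ' : ∀ i σ, ρ' i σ = τ (ξ i σ) ∘ₗ ρ σ)
    (α' : ι → Representation ℂ Gal(Ω/k) A) (hα' : ∀ i σ, α' i σ = τA (ξ i σ) ∘ₗ α σ)
    (ρ₀ : Representation ℂ Gal(Ω/k) τ.invariants) (hρ₀ : ∀ σ x, (ρ₀ σ x : V) = ρ σ x)
    (α₀ : Representation ℂ Gal(Ω/k) τA.invariants) (hα₀ : ∀ σ x, (α₀ σ x : A) = α σ x) :
    ∑ i, ((mu 𝒰 (ctr (RingHom.id ℂ) (ρ' i)) - finrank ℂ (α' i).invariants) -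
        (mu 𝒰 (ctr (RingHom.id ℂ) ρ₀) - finrank ℂ α₀.invariants)) ^ 2 ≤
      (((finrank ℂ V : ℝ) - finrank ℂ A) - ((finrank ℂ τ.invariants : ℝ) -
        finrank ℂ τA.invariants)) ^ 2 := by
  classical
  set n' : ℝ := ((finrank ℂ V : ℝ) - finrank ℂ A) - ((finrank ℂ τ.invariants : ℝ) -
        finrank ℂ τA.invariants) with hn'
  -- `α` commutes with `τA`
  have hω0 : ∀ σ, ω σ ≠ 0 := by
    intro σ h0
    have h1 : ω σ * ω σ⁻¹ = 1 := by rw [← map_mul, mul_inv_cancel, map_one]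
    rw [h0, zero_mul] at h1
    exact zero_ne_one h1
  have hτA : ∀ σ g, α σ ∘ₗ τA g = τA g ∘ₗ α σ := by
    intro σ g
    ext x
    apply hcl
    have h1 : ω σ • cl (α σ (τA g x)) = ω σ • cl (τA g (α σ x)) := by
      rw [← hclω, hclτ, hclτ, ← map_smul, ← hclω]
      exact LinearMap.congr_fun (hτ σ g) (cl x)
    exact smul_right_injective V (hω0 σ) h1
  let φ : HeightOneSpectrum (𝓞 k) → Gal(Ω/k) := fun 𝔭 => (frobeniusAt Ω 𝔭).φ⁻¹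
  let good : HeightOneSpectrum (𝓞 k) → Prop := fun 𝔭 =>
    Unram ρ 𝔭 ∧ ω (φ 𝔭) = Ideal.absNorm 𝔭.asIdeal ∧
      ∀ Q : Ideal (𝓞 Ω), Q.IsPrime → Q.under (𝓞 k) = 𝔭.asIdeal →
        ∀ σ ∈ Q.inertia Gal(Ω/k), σ ∈ M.fixingSubgroup
  have hgood : {𝔭 | ¬ good 𝔭}.Finite := by
    refine (((finite_not_unram hρ).union hω).union (finite_ramified (Ω := Ω) M)).subset fun 𝔭 h𝔭 => ?_
    by_contra hcon
    simp only [Set.mem_union, not_or] at hcon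
    obtain ⟨⟨hc1, hc2⟩, hc3⟩ := hcon
    apply h𝔭
    refine ⟨?_, ?_, ?_⟩
    · by_contra h
      exact hc1 h
    · by_contra h
      exact hc2 h
    · intro Q hQ hQ2 σ hσ
      by_contra h
      exact hc3 ⟨Q, hQ, hQ2, σ, hσ, h⟩
  let F : HeightOneSpectrum (𝓞 k) → V →ₗ[ℂ] V := fun 𝔭 => (((nrm 𝔭 : ℝ) : ℂ))⁻¹ • ρ (φ 𝔭)
  have hFτ : ∀ 𝔭 g, F 𝔭 ∘ₗ τ g = τ g ∘ₗ F 𝔭 := by
    intro 𝔭 g
    ext x
    change (((nrm 𝔭 : ℝ) : ℂ))⁻¹ • ρ (φ 𝔭) (τ g x) = τ g ((((nrm 𝔭 : ℝ) : ℂ))⁻¹ • ρ (φ 𝔭) x)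
    rw [map_smul]
    congr 1
    exact LinearMap.congr_fun (hτ (φ 𝔭) g) x
  let z : ι → HeightOneSpectrum (𝓞 k) → ℂ := fun i 𝔭 =>
    (LinearMap.trace ℂ V (τ (ξ i (φ 𝔭)) ∘ₗ F 𝔭) -
      LinearMap.trace ℂ A (τA (ξ i (φ 𝔭)) ∘ₗ α (φ 𝔭))) -
      (∑ x, (LinearMap.trace ℂ V (τ x ∘ₗ F 𝔭) - LinearMap.trace ℂ A (τA x ∘ₗ α (φ 𝔭)))) /
        Fintype.card G
  set f : G → ℝ := fun x => (τ.character x - τA.character x).re with hf
  set f₀ : ℝ := (finrank ℂ τ.invariants : ℝ) - finrank ℂ τA.invariants with hf₀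
  have hfcomm : ∀ x y, f (x * y) = f (y * x) := by
    intro x y
    rw [hf]
    beta_reduce
    rw [τ.char_mul_comm, τA.char_mul_comm]
  have hfsum : ∑ x, f x = Fintype.card G * f₀ := by
    have h1 := congrArg Complex.re (sum_char τ)
    have h2 := congrArg Complex.re (sum_char τA)
    rw [Complex.re_sum] at h1 h2
    have h3 : ∑ x, f x = ∑ x, (τ.character x).re - ∑ x, (τA.character x).re := by
      rw [← Finset.sum_sub_distrib]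
      rfl
    have e1 : ((Fintype.card G : ℂ) * (finrank ℂ τ.invariants : ℂ)).re =
        (Fintype.card G : ℝ) * finrank ℂ τ.invariants := by
      rw [show ((Fintype.card G : ℂ) * (finrank ℂ τ.invariants : ℂ)) =
        ((Fintype.card G * finrank ℂ τ.invariants : ℝ) : ℂ) by push_cast; rfl, Complex.ofReal_re]
    have e2 : ((Fintype.card G : ℂ) * (finrank ℂ τA.invariants : ℂ)).re =
        (Fintype.card G : ℝ) * finrank ℂ τA.invariants := by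
      rw [show ((Fintype.card G : ℂ) * (finrank ℂ τA.invariants : ℂ)) =
        ((Fintype.card G * finrank ℂ τA.invariants : ℝ) : ℂ) by push_cast; rfl, Complex.ofReal_re]
    rw [h3, h1, h2, e1, e2, hf₀]
    ring
  have hf1 : f 1 - f₀ = n' := by
    rw [hf, hn', hf₀]
    beta_reduce
    rw [Representation.char_one, Representation.char_one, Complex.sub_re, Complex.natCast_re,
      Complex.natCast_re]
  -- the pointwise inequality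
  have hpt : ∀ (c : ι → ℝ) (𝔭), good 𝔭 →
      ‖∑ i, (c i : ℂ) * z i 𝔭‖ ^ 2 ≤ n' * QB f f₀ c (fun i => ξ i (φ 𝔭)) := by
    intro c 𝔭 hg
    have hN := nrm_pos 𝔭
    have hNc : ((nrm 𝔭 : ℝ) : ℂ) ≠ 0 := by exact_mod_cast hN.ne'
    apply le_QB
    intro y
    have h1 := pair_ineq τ τA cl hcl hclτ (F 𝔭) (hFτ 𝔭) (α (φ 𝔭)) (fun x => by
      change (((nrm 𝔭 : ℝ) : ℂ))⁻¹ • ρ (φ 𝔭) (cl x) = cl (α (φ 𝔭) x)
      rw [hclω, hg.2.1]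
      change (((nrm 𝔭 : ℝ) : ℂ))⁻¹ • (((nrm 𝔭 : ℝ) : ℂ)) • _ = _
      rw [smul_smul, inv_mul_cancel₀ hNc, one_smul]) (fun w hw => by
      rw [mem_roots_charpoly] at hw
      obtain ⟨v, hv0, hv⟩ := hw
      have h2 : ρ (φ 𝔭) v = (((nrm 𝔭 : ℝ) : ℂ) * w) • v := by
        have h3 : ρ (φ 𝔭) v = ((nrm 𝔭 : ℝ) : ℂ) • (F 𝔭 v) := by
          change _ = ((nrm 𝔭 : ℝ) : ℂ) • ((((nrm 𝔭 : ℝ) : ℂ))⁻¹ • ρ (φ 𝔭) v)
          rw [smul_smul, mul_inv_cancel₀ hNc, one_smul]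
        rw [h3, hv, smul_smul]
      have h4 := base_weights hρ 𝔭 (frobeniusAt Ω 𝔭) (((nrm 𝔭 : ℝ) : ℂ) * w) (by
        rw [charpoly_geomFrob_of_unramified ρ _
            (hg.1 _ (frobeniusAt Ω 𝔭).isPrime (frobeniusAt Ω 𝔭).under_eq), mem_roots_charpoly]
        exact ⟨v, hv0, h2⟩)
      rw [norm_mul, Complex.norm_real, Real.norm_of_nonneg hN.le] at h4
      change nrm 𝔭 * ‖w‖ ≤ nrm 𝔭 at h4
      nlinarith) c (y * (fun i => ξ i (φ 𝔭)) * y⁻¹)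
    have h5 : ∀ (i : ι), (c i : ℂ) * ((LinearMap.trace ℂ V
        (τ ((y * (fun i => ξ i (φ 𝔭)) * y⁻¹) i) ∘ₗ F 𝔭) -
        LinearMap.trace ℂ A (τA ((y * (fun i => ξ i (φ 𝔭)) * y⁻¹) i) ∘ₗ α (φ 𝔭))) -
        (∑ x, (LinearMap.trace ℂ V (τ x ∘ₗ F 𝔭) - LinearMap.trace ℂ A (τA x ∘ₗ α (φ 𝔭)))) /
        Fintype.card G) = (c i : ℂ) * z i 𝔭 := by
      intro i
      have e1 : LinearMap.trace ℂ V (τ ((y * (fun i => ξ i (φ 𝔭)) * y⁻¹) i) ∘ₗ F 𝔭) =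
          LinearMap.trace ℂ V (τ (ξ i (φ 𝔭)) ∘ₗ F 𝔭) := by
        have e2 : τ ((y * (fun i => ξ i (φ 𝔭)) * y⁻¹) i) ∘ₗ F 𝔭 =
            (τ (y i)) ∘ₗ ((τ (ξ i (φ 𝔭)) ∘ₗ F 𝔭) ∘ₗ τ (y i)⁻¹) := by
          rw [Pi.mul_apply, Pi.mul_apply, Pi.inv_apply, map_mul, map_mul]
          change (τ (y i) ∘ₗ τ (ξ i (φ 𝔭)) ∘ₗ τ (y i)⁻¹) ∘ₗ F 𝔭 = _
          rw [LinearMap.comp_assoc, LinearMap.comp_assoc, ← hFτ, LinearMap.comp_assoc]
        rw [e2, LinearMap.trace_comp_comm', LinearMap.comp_assoc]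
        have e3 : τ (y i)⁻¹ ∘ₗ τ (y i) = LinearMap.id := by
          change τ (y i)⁻¹ * τ (y i) = 1
          rw [← map_mul, inv_mul_cancel, map_one]
        rw [e3, LinearMap.comp_id]
      have e1' : LinearMap.trace ℂ A (τA ((y * (fun i => ξ i (φ 𝔭)) * y⁻¹) i) ∘ₗ α (φ 𝔭)) =
          LinearMap.trace ℂ A (τA (ξ i (φ 𝔭)) ∘ₗ α (φ 𝔭)) := by
        have e2 : τA ((y * (fun i => ξ i (φ 𝔭)) * y⁻¹) i) ∘ₗ α (φ 𝔭) =
            (τA (y i)) ∘ₗ ((τA (ξ i (φ 𝔭)) ∘ₗ α (φ 𝔭)) ∘ₗ τA (y i)⁻¹) := by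
          rw [Pi.mul_apply, Pi.mul_apply, Pi.inv_apply, map_mul, map_mul]
          change (τA (y i) ∘ₗ τA (ξ i (φ 𝔭)) ∘ₗ τA (y i)⁻¹) ∘ₗ α (φ 𝔭) = _
          rw [LinearMap.comp_assoc, LinearMap.comp_assoc, ← hτA, LinearMap.comp_assoc]
        rw [e2, LinearMap.trace_comp_comm', LinearMap.comp_assoc]
        have e3 : τA (y i)⁻¹ ∘ₗ τA (y i) = LinearMap.id := by
          change τA (y i)⁻¹ * τA (y i) = 1
          rw [← map_mul, inv_mul_cancel, map_one]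
        rw [e3, LinearMap.comp_id]
      rw [e1, e1']
    rw [Finset.sum_congr rfl fun i _ => h5 i] at h1
    exact h1
  -- the normalised traces
  have hw' := fun i 𝔭 D w hw => form_weights hρ τ hτ (ξ i) M (hM i) (ρ' i) (hρ' i) 𝔭 D w hw
  have hw₀ := fun 𝔭 D w hw => sub_weights hρ τ.invariants ρ₀ hρ₀ 𝔭 D w hw
  have hb' : ∀ i, Bdd (ctr (RingHom.id ℂ) (ρ' i)) := fun i => (log_LFunction_base (ρ' i) (hw' i)).1
  have hb₀ : Bdd (ctr (RingHom.id ℂ) ρ₀) := (log_LFunction_base ρ₀ hw₀).1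
  have hα'1 : ∀ i, ∀ σ ∈ (L ⊔ M).fixingSubgroup, α' i σ = 1 := by
    intro i σ hσ
    have h1 : σ ∈ L.fixingSubgroup := IntermediateField.fixingSubgroup_antitone le_sup_left hσ
    have h2 : σ ∈ M.fixingSubgroup := IntermediateField.fixingSubgroup_antitone le_sup_right hσ
    rw [hα', hα σ h1, hM i σ h2, map_one]
    rfl
  have hα₀1 : ∀ σ ∈ L.fixingSubgroup, α₀ σ = 1 := by
    intro σ hσ
    ext x
    rw [hα₀, hα σ hσ]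
    rfl
  let a' : ι → HeightOneSpectrum (𝓞 k) → ℝ := fun i 𝔭 => ((α' i).character (frobeniusAt Ω 𝔭).φ⁻¹).re
  let a₀ : HeightOneSpectrum (𝓞 k) → ℝ := fun 𝔭 => (α₀.character (frobeniusAt Ω 𝔭).φ⁻¹).re
  have hba' : ∀ i, Bdd (a' i) := fun i => bdd_char (L ⊔ M) (α' i) (hα'1 i)
  have hba₀ : Bdd a₀ := bdd_char L α₀ hα₀1
  have hma' : ∀ i, mu 𝒰 (a' i) = finrank ℂ (α' i).invariants := fun i =>
    mu_eq_of_mean h𝒰 (mean_character (L ⊔ M) (α' i) (hα'1 i))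
  have hma₀ : mu 𝒰 a₀ = finrank ℂ α₀.invariants :=
    mu_eq_of_mean h𝒰 (mean_character L α₀ hα₀1)
  let u : ι → HeightOneSpectrum (𝓞 k) → ℝ := fun i 𝔭 =>
    (ctr (RingHom.id ℂ) (ρ' i) 𝔭 - a' i 𝔭) - (ctr (RingHom.id ℂ) ρ₀ 𝔭 - a₀ 𝔭)
  have hbu : ∀ i, Bdd (u i) := fun i => Bdd.sub' (Bdd.sub' (hb' i) (hba' i)) (Bdd.sub' hb₀ hba₀)
  set d : ι → ℝ := fun i => (mu 𝒰 (ctr (RingHom.id ℂ) (ρ' i)) - finrank ℂ (α' i).invariants) -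
        (mu 𝒰 (ctr (RingHom.id ℂ) ρ₀) - finrank ℂ α₀.invariants) with hd
  have hmu : ∀ i, mu 𝒰 (u i) = d i := by
    intro i
    rw [mu_sub h𝒰 (Bdd.sub' (hb' i) (hba' i)) (Bdd.sub' hb₀ hba₀), mu_sub h𝒰 (hb' i) (hba' i),
      mu_sub h𝒰 hb₀ hba₀, hma', hma₀]
  have huz : ∀ i 𝔭, good 𝔭 → u i 𝔭 = (z i 𝔭).re := by
    intro i 𝔭 hg
    have hNc : ((nrm 𝔭 : ℝ) : ℂ) ≠ 0 := by exact_mod_cast (nrm_pos 𝔭).ne'
    have e1 : ctr (RingHom.id ℂ) (ρ' i) 𝔭 =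
        (LinearMap.trace ℂ V (τ (ξ i (φ 𝔭)) ∘ₗ F 𝔭)).re := by
      unfold ctr
      rw [sum_eigs _ (unram_form τ (ξ i) M (hM i) (ρ' i) (hρ' i) hg.1 hg.2.2),
        ← Complex.div_ofReal_re]
      congr 1
      unfold Representation.character
      rw [hρ']
      change _ = LinearMap.trace ℂ V (τ (ξ i (φ 𝔭)) ∘ₗ ((((nrm 𝔭 : ℝ) : ℂ))⁻¹ • ρ (φ 𝔭)))
      rw [LinearMap.comp_smul, map_smul, smul_eq_mul, div_eq_inv_mul]
    have e2 : ctr (RingHom.id ℂ) ρ₀ 𝔭 =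
        ((∑ x, LinearMap.trace ℂ V (τ x ∘ₗ F 𝔭)) / Fintype.card G).re := by
      rw [mean_trace τ (F 𝔭) (hFτ 𝔭) ((((nrm 𝔭 : ℝ) : ℂ))⁻¹ • ρ₀ (φ 𝔭)) (fun x => by
        change (((nrm 𝔭 : ℝ) : ℂ))⁻¹ • ((ρ₀ (φ 𝔭) x : τ.invariants) : V) = _
        rw [hρ₀]
        rfl)]
      unfold ctr
      rw [sum_eigs _ (unram_sub _ ρ₀ hρ₀ hg.1), ← Complex.div_ofReal_re]
      congr 1
      unfold Representation.character
      rw [map_smul, smul_eq_mul, div_eq_inv_mul]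
    have e3 : a' i 𝔭 = (LinearMap.trace ℂ A (τA (ξ i (φ 𝔭)) ∘ₗ α (φ 𝔭))).re := by
      change ((α' i).character (φ 𝔭)).re = _
      unfold Representation.character
      rw [hα']
    have e4 : a₀ 𝔭 = ((∑ x, LinearMap.trace ℂ A (τA x ∘ₗ α (φ 𝔭))) / Fintype.card G).re := by
      rw [mean_trace τA (α (φ 𝔭)) (hτA (φ 𝔭)) (α₀ (φ 𝔭)) (hα₀ (φ 𝔭))]
      rfl
    change (ctr (RingHom.id ℂ) (ρ' i) 𝔭 - a' i 𝔭) - (ctr (RingHom.id ℂ) ρ₀ 𝔭 - a₀ 𝔭) = (z i 𝔭).re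
    rw [e1, e2, e3, e4]
    change _ = ((LinearMap.trace ℂ V (τ (ξ i (φ 𝔭)) ∘ₗ F 𝔭) -
      LinearMap.trace ℂ A (τA (ξ i (φ 𝔭)) ∘ₗ α (φ 𝔭))) -
      (∑ x, (LinearMap.trace ℂ V (τ x ∘ₗ F 𝔭) - LinearMap.trace ℂ A (τA x ∘ₗ α (φ 𝔭)))) /
        Fintype.card G).re
    rw [Finset.sum_sub_distrib, sub_div, Complex.sub_re, Complex.sub_re, Complex.sub_re]
  -- the sum
  set D : ℝ := ∑ i, d i ^ 2 with hD
  have hD0 : 0 ≤ D := Finset.sum_nonneg fun i _ => sq_nonneg _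
  let S : HeightOneSpectrum (𝓞 k) → ℝ := fun 𝔭 => if good 𝔭 then ∑ i, d i * u i 𝔭 else 0
  have hbS0 : Bdd (fun 𝔭 => ∑ i, d i * u i 𝔭) :=
    Bdd.sum Finset.univ fun i _ => (Bdd.const (d i)).mul (hbu i)
  have hbS : Bdd S := by
    obtain ⟨C, hC⟩ := hbS0
    refine ⟨max C 0, fun 𝔭 => ?_⟩
    change |if good 𝔭 then ∑ i, d i * u i 𝔭 else 0| ≤ _
    split_ifs
    · exact (hC 𝔭).trans (le_max_left _ _)
    · rw [abs_zero]
      exact le_max_right _ _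
  have hmS : mu 𝒰 S = D := by
    have h1 : mu 𝒰 S = mu 𝒰 (fun 𝔭 => ∑ i, d i * u i 𝔭) := by
      refine mu_congr_finite h𝒰 hbS hbS0 (hgood.subset fun 𝔭 h𝔭 => ?_)
      intro hg
      apply h𝔭
      exact if_pos hg
    rw [h1, mu_sum h𝒰 _ fun i _ => (Bdd.const (d i)).mul (hbu i), hD]
    refine Finset.sum_congr rfl fun i _ => ?_
    rw [mu_const_mul h𝒰 _ (hbu i), hmu]
    ring
  have hmQ := mean_QB_pair M (MonoidHom.pi ξ) hs (fun σ hσ => funext fun i => hM i σ hσ) f hfcomm f₀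
    hfsum d
  have hmQ' := mu_eq_of_mean h𝒰 hmQ
  have hbQ : Bdd (fun 𝔭 : HeightOneSpectrum (𝓞 k) =>
      QB f f₀ d ((MonoidHom.pi ξ : Gal(Ω/k) →* (ι → G)) (frobeniusAt Ω 𝔭).φ⁻¹)) :=
    bdd_comp (k := k) (fun g => QB f f₀ d g) _
  let R : HeightOneSpectrum (𝓞 k) → ℝ := fun 𝔭 => if good 𝔭 then
    n' * QB f f₀ d ((MonoidHom.pi ξ : Gal(Ω/k) →* (ι → G)) (frobeniusAt Ω 𝔭).φ⁻¹) else 0
  have hbR0 := (Bdd.const (k := k) n').mul hbQ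
  have hbR : Bdd R := by
    obtain ⟨C, hC⟩ := hbR0
    refine ⟨max C 0, fun 𝔭 => ?_⟩
    change |if good 𝔭 then _ else (0 : ℝ)| ≤ _
    split_ifs
    · exact (hC 𝔭).trans (le_max_left _ _)
    · rw [abs_zero]
      exact le_max_right _ _
  have hmR : mu 𝒰 R = n' * (n' * D) := by
    have h1 : mu 𝒰 R = mu 𝒰 (fun 𝔭 => n' *
        QB f f₀ d ((MonoidHom.pi ξ : Gal(Ω/k) →* (ι → G)) (frobeniusAt Ω 𝔭).φ⁻¹)) := by
      refine mu_congr_finite h𝒰 hbR hbR0 (hgood.subset fun 𝔭 h𝔭 => ?_)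
      intro hg
      apply h𝔭
      exact if_pos hg
    rw [h1, mu_const_mul h𝒰 _ hbQ, hmQ', hf1]
  have hSR : ∀ 𝔭, S 𝔭 ^ 2 ≤ R 𝔭 := by
    intro 𝔭
    change (if good 𝔭 then ∑ i, d i * u i 𝔭 else 0) ^ 2 ≤ if good 𝔭 then _ else (0 : ℝ)
    split_ifs with hg
    · have h1 := hpt d 𝔭 hg
      refine le_trans ?_ h1
      have h2 : ∑ i, d i * u i 𝔭 = (∑ i, (d i : ℂ) * z i 𝔭).re := by
        rw [Complex.re_sum]
        refine Finset.sum_congr rfl fun i _ => ?_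
        rw [Complex.re_ofReal_mul, huz i 𝔭 hg]
      rw [h2, ← sq_abs]
      exact pow_le_pow_left₀ (abs_nonneg _) (Complex.abs_re_le_norm _) 2
    · simp
  have hbS2 : Bdd (fun 𝔭 => S 𝔭 ^ 2) := by
    obtain ⟨C, hC⟩ := hbS.mul hbS
    refine ⟨C, fun v => ?_⟩
    beta_reduce
    rw [pow_two]
    exact hC v
  have hfin := (mu_sq_le h𝒰 hbS).trans (mu_mono h𝒰 hbS2 hbR hSR)
  rw [hmS, hmR] at hfin
  change D ≤ n' ^ 2
  rcases hD0.eq_or_lt with h0 | h0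
  · rw [← h0]
    exact sq_nonneg _
  · nlinarith

end Core

end Pool.Agent.H3.TF
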