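import Mathlib
import Pool.Agent.H3.Artin.Defect

/-!
# TwistedForms, TF-6: restriction to a finite extension `K` of `k`

`weights_res`: `WeightsLeTwo` passes from `ρ` to `resRep ρ K`.  The weights clause for an
intermediate field `M` of `Ω/K` is the clause for `M.restrictScalars k` (the same field, and
`resRep (resRep ρ K) M` is the same map as `resRep ρ (M.restrictScalars k)`; try
`exact hρ.weights (M.restrictScalars k) 𝔓 D z hz` up to unfolding).  Unramified: a prime of `K` in the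
exceptional set lies above one in the exceptional set of `k` (`Q.under (𝓞 k) = (below k 𝔓).asIdeal`,
`Ideal.under_under`), and the fibres of `below k` are finite (`fiber_card` in
`Pool/Agent/H3/TatePole/Ext.lean`).

`tate_res`: `IsTateTwist` passes from `ω` to its restriction to `Gal(Ω/K)`.  Let `𝔓` be a prime of
`K` not above an exceptional prime of `k`, `D` a Frobenius at `𝔓`, `Q = D.Q`, `𝔭` the prime of `k`
below, `D₀` a Frobenius at `𝔭` with the same `Q` (`exists_frobeniusAt_prime`), `N 𝔓 = (N 𝔭)^f`.  Then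
`D.φ = D₀.φ^f · i` with `i` in the inertia group at `Q` (see `hin` in the proof of `twist_weights`,
`Pool/Agent/H3/Artin/Twist.lean`), and `ω(i) = 1` since `D₀.φ · i` (or `i · D₀.φ`) is also a Frobenius
at `Q`, so has the same value of `ω`, a nonzero number.  So `ω(D.φ⁻¹) = (N 𝔭)^f = N 𝔓`.
-/

open NumberField IsDedekindDomain Filter Topology Module

namespace Pool.Agent.H3.TF

open TatePole Cheb Artin
open scoped Pointwise

variable {k : Type*} [Field k] [NumberField k] {Ω : Type*} [Field Ω] [Algebra k Ω] [IsGalois k Ω]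
variable {V : Type*} [AddCommGroup V] [Module ℂ V] [FiniteDimensional ℂ V]

lemma finite_below_preimage {K : Type*} [Field K] [NumberField K] [Algebra k K]
    {S : Set (HeightOneSpectrum (𝓞 k))} (hS : S.Finite) :
    ((fun P : HeightOneSpectrum (𝓞 K) => below k P) ⁻¹' S).Finite := by
  refine Set.Finite.preimage' hS fun p _ => ?_
  have h1 : Finite {P : HeightOneSpectrum (𝓞 K) // below k P = p} := (fiber_card (K := K) p).1
  have h2 : {P : HeightOneSpectrum (𝓞 K) | below k P = p}.Finite := Set.finite_coe_iff.mp h1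
  exact h2

/-- a Frobenius element times an element of inertia is a Frobenius element -/
lemma exists_frob_mul_inertia {𝔭 : HeightOneSpectrum (𝓞 k)} (D : FrobeniusAt Ω 𝔭)
    {i : Gal(Ω/k)} (hi : i ∈ D.Q.inertia Gal(Ω/k)) :
    ∃ D' : FrobeniusAt Ω 𝔭, D'.φ = D.φ * i := by
  have := D.isPrime
  refine ⟨⟨D.Q, D.isPrime, D.under_eq, D.φ * i, fun x => ?_⟩, rfl⟩
  have hstab : D.φ • D.Q = D.Q := D.isArithFrob.mem_stabilizer
  have h1 : i • x - x ∈ D.Q := hi x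
  have h2 : D.φ • (i • x - x) ∈ D.Q := by
    have h3 := Ideal.smul_mem_pointwise_smul D.φ (i • x - x) D.Q h1
    rw [hstab] at h3
    exact h3
  have h4 : D.φ • x - x ^ Nat.card (𝓞 k ⧸ D.Q.under (𝓞 k)) ∈ D.Q := D.isArithFrob x
  have h5 : (D.φ * i) • x - x ^ Nat.card (𝓞 k ⧸ D.Q.under (𝓞 k)) =
      D.φ • (i • x - x) + (D.φ • x - x ^ Nat.card (𝓞 k ⧸ D.Q.under (𝓞 k))) := by
    rw [mul_smul, smul_sub]
    ring
  change (D.φ * i) • x - x ^ Nat.card (𝓞 k ⧸ D.Q.under (𝓞 k)) ∈ D.Q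
  rw [h5]
  exact D.Q.add_mem h2 h4

theorem weights_res {ρ : Representation ℂ Gal(Ω/k) V} (hρ : WeightsLeTwo (RingHom.id ℂ) ρ)
    (K : IntermediateField k Ω) [FiniteDimensional k K] :
    WeightsLeTwo (RingHom.id ℂ) (resRep ρ K) := by
  refine ⟨?_, ?_⟩
  · refine (finite_below_preimage (K := K) hρ.unramified).subset ?_
    rintro 𝔓 ⟨Q, hQ, hQ2, σ, hσ, hne⟩
    refine ⟨Q, hQ, ?_, AlgEquiv.restrictScalarsHom k σ, hσ, hne⟩
    rw [below_asIdeal, ← hQ2]
    exact (Ideal.under_under (A := 𝓞 k) (B := 𝓞 K) Q).symm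
  · intro M hM 𝔓 D z hz
    have : FiniteDimensional k (M.restrictScalars k) := by
      have : FiniteDimensional k M := Module.Finite.trans (R := k) K M
      exact this
    exact hρ.weights (M.restrictScalars k) 𝔓 D z hz

theorem tate_res {ω : Gal(Ω/k) →* ℂ} (hω : IsTateTwist ω) (K : IntermediateField k Ω)
    [FiniteDimensional k K] :
    IsTateTwist (k := K) (ω.comp (AlgEquiv.restrictScalarsHom k : Gal(Ω/K) →* Gal(Ω/k))) := by
  refine (finite_below_preimage (K := K) hω).subset ?_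
  rintro 𝔓 ⟨D, hD⟩
  by_contra hcon
  apply hD
  have hall : ∀ D₀ : FrobeniusAt Ω (below k 𝔓), ω D₀.φ⁻¹ =
      Ideal.absNorm (below k 𝔓).asIdeal := by
    intro D₀
    by_contra h
    exact hcon ⟨D₀, h⟩
  have := D.isPrime
  have hbelow : D.Q.under (𝓞 k) = (below k 𝔓).asIdeal := by
    rw [below_asIdeal, ← D.under_eq]
    exact (Ideal.under_under (A := 𝓞 k) (B := 𝓞 K) D.Q).symm
  obtain ⟨D₀, hD₀⟩ := exists_frobeniusAt_prime (F := k) (below k 𝔓) D.Q D.isPrime hbelow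
  obtain ⟨f, hf0, hf⟩ : ∃ f : ℕ, f ≠ 0 ∧
      Nat.card (𝓞 K ⧸ 𝔓.asIdeal) = Nat.card (𝓞 k ⧸ (below k 𝔓).asIdeal) ^ f := by
    have : Finite (𝓞 K ⧸ 𝔓.asIdeal) := finite_quot _
    have : Finite (𝓞 k ⧸ (below k 𝔓).asIdeal) := finite_quot _
    have : 𝔓.asIdeal.LiesOver (below k 𝔓).asIdeal := ⟨rfl⟩
    let : Field (𝓞 k ⧸ (below k 𝔓).asIdeal) := Ideal.Quotient.field _
    have : Nontrivial (𝓞 K ⧸ 𝔓.asIdeal) := Ideal.Quotient.nontrivial_iff.mpr 𝔓.isPrime.ne_top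
    refine ⟨Module.finrank (𝓞 k ⧸ (below k 𝔓).asIdeal) (𝓞 K ⧸ 𝔓.asIdeal), ?_,
      Module.natCard_eq_pow_finrank⟩
    intro h0
    have h1 : Nat.card (𝓞 K ⧸ 𝔓.asIdeal) = 1 := by
      rw [Module.natCard_eq_pow_finrank (K := 𝓞 k ⧸ (below k 𝔓).asIdeal)
        (V := 𝓞 K ⧸ 𝔓.asIdeal), h0, pow_zero]
    have h2 : 1 < Nat.card (𝓞 K ⧸ 𝔓.asIdeal) := Finite.one_lt_card
    omega
  have hp0 := D₀.isPrime
  set φ' : Gal(Ω/k) := AlgEquiv.restrictScalarsHom k D.φ with hφ'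
  have hstab : D₀.φ • D₀.Q = D₀.Q := D₀.isArithFrob.mem_stabilizer
  have hin : (D₀.φ ^ f)⁻¹ * φ' ∈ D₀.Q.inertia Gal(Ω/k) := by
    intro x
    have h1 : φ' • x - (D₀.φ ^ f) • x ∈ D₀.Q := by
      rw [← Ideal.Quotient.eq, mk_frob_pow, ← hf]
      have h2 := D.isArithFrob x
      rw [D.under_eq, ← hD₀] at h2
      rw [← map_pow, Ideal.Quotient.eq]
      exact h2
    have h2 : (D₀.φ ^ f)⁻¹ ∈ MulAction.stabilizer Gal(Ω/k) D₀.Q :=
      inv_mem (pow_mem (MulAction.mem_stabilizer_iff.mpr hstab) f)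
    have h3 : (D₀.φ ^ f)⁻¹ • (φ' • x - (D₀.φ ^ f) • x) ∈ (D₀.φ ^ f)⁻¹ • D₀.Q :=
      Ideal.smul_mem_pointwise_smul _ _ _ h1
    rw [MulAction.mem_stabilizer_iff.mp h2, smul_sub, inv_smul_smul, ← mul_smul] at h3
    exact h3
  have hN0 : ((Ideal.absNorm (below k 𝔓).asIdeal : ℕ) : ℂ) ≠ 0 := by
    rw [Nat.cast_ne_zero]
    intro h
    exact (below k 𝔓).ne_bot (Ideal.absNorm_eq_zero_iff.mp h)
  -- `ω` is trivial on inertia
  have hone : ω (((D₀.φ ^ f)⁻¹ * φ')⁻¹) = 1 := by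
    obtain ⟨D₁, hD₁⟩ := exists_frob_mul_inertia D₀ hin
    have h1 := hall D₁
    rw [hD₁, mul_inv_rev, map_mul, hall D₀] at h1
    exact mul_right_cancel₀ hN0 (h1.trans (one_mul _).symm)
  have e1 : φ'⁻¹ = ((D₀.φ ^ f)⁻¹ * φ')⁻¹ * (D₀.φ⁻¹) ^ f := by
    rw [inv_pow, mul_inv_rev, inv_inv, mul_assoc, mul_inv_cancel, mul_one]
  have e2 : (ω.comp (AlgEquiv.restrictScalarsHom k : Gal(Ω/K) →* Gal(Ω/k))) D.φ⁻¹ = ω φ'⁻¹ := by
    rw [MonoidHom.comp_apply, map_inv]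
  rw [e2, e1, map_mul, hone, one_mul, map_pow, hall D₀]
  rw [Ideal.absNorm_apply, Ideal.absNorm_apply, Submodule.cardQuot_apply,
    Submodule.cardQuot_apply, hf]
  push_cast
  rfl

end Pool.Agent.H3.TF
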