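import Mathlib
import Pool.Agent.H3.TF.Core
import Pool.Agent.H3.TF.Res
import Pool.Agent.H3.TF.Conj

/-!
# TwistedForms: final forms
-/

open NumberField IsDedekindDomain Filter Topology Module

namespace Pool.Agent.H3.TF

open TatePole Cheb Artin

section Form

variable {Γ G V : Type*} [Group Γ] [Group G] [AddCommGroup V] [Module ℂ V]

/-- the form of `ρ` twisted by `ξ` -/
noncomputable def formRep (ρ : Representation ℂ Γ V) (τ : Representation ℂ G V)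
    (hτ : ∀ σ g, ρ σ ∘ₗ τ g = τ g ∘ₗ ρ σ) (ξ : Γ →* G) : Representation ℂ Γ V where
  toFun σ := τ (ξ σ) ∘ₗ ρ σ
  map_one' := by
    rw [map_one, map_one, map_one]
    rfl
  map_mul' σ σ' := by
    rw [map_mul, map_mul, map_mul]
    change (τ (ξ σ) ∘ₗ τ (ξ σ')) ∘ₗ (ρ σ ∘ₗ ρ σ') = (τ (ξ σ) ∘ₗ ρ σ) ∘ₗ (τ (ξ σ') ∘ₗ ρ σ')
    rw [LinearMap.comp_assoc, LinearMap.comp_assoc, ← LinearMap.comp_assoc (ρ σ') (ρ σ) (τ (ξ σ')),
      ← hτ, LinearMap.comp_assoc]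

end Form

section Main

variable {k : Type*} [Field k] [NumberField k] {Ω : Type*} [Field Ω] [Algebra k Ω] [IsGalois k Ω]
variable {V A : Type*} [AddCommGroup V] [Module ℂ V] [FiniteDimensional ℂ V]
  [AddCommGroup A] [Module ℂ A] [FiniteDimensional ℂ A]
variable {G : Type*} [Group G] {ι : Type*} [Fintype ι]

/-- conjugation by `t` on `Gal(Ω/K)` -/
lemma exists_conjHom (K : IntermediateField k Ω) [Normal k K] (t : Gal(Ω/k)) :
    ∃ c : Gal(Ω/K) →* Gal(Ω/K), ∀ σ (x : Ω), t (c σ x) = σ (t x) := by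
  choose c hc using exists_conj K t
  refine ⟨
    { toFun := c
      map_one' := ?_
      map_mul' := ?_ }, hc⟩
  · ext x
    apply t.injective
    rw [hc]
    rfl
  · intro σ σ'
    ext x
    apply t.injective
    rw [hc, AlgEquiv.mul_apply, AlgEquiv.mul_apply, hc, hc]

/-- a large field over `K`: normal, finite, with the images of `M` and `L` -/
lemma exists_big (K : IntermediateField k Ω) [FiniteDimensional k K] [Normal k K]
    (M : IntermediateField K Ω) [FiniteDimensional K M] (L : IntermediateField k Ω)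
    [FiniteDimensional k L] : ∃ N : IntermediateField K Ω, FiniteDimensional K N ∧ Normal K N ∧
      (∀ t : Gal(Ω/k), ∀ x ∈ M, t x ∈ N) ∧ ∀ x ∈ L, x ∈ N := by
  haveI : FiniteDimensional k (M.restrictScalars k) := FiniteDimensional.trans k K M
  set N₀ : IntermediateField k Ω :=
    IntermediateField.normalClosure k ((M.restrictScalars k) ⊔ L : IntermediateField k Ω) Ω with hN₀
  have hle : ((M.restrictScalars k) ⊔ L : IntermediateField k Ω) ≤ N₀ :=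
    IntermediateField.le_normalClosure _
  have hMN : ∀ x ∈ M, x ∈ N₀ := fun x hx => hle ((le_sup_left : M.restrictScalars k ≤ _) hx)
  have hLN : ∀ x ∈ L, x ∈ N₀ := fun x hx => hle ((le_sup_right : L ≤ _) hx)
  have hKN : K ≤ N₀ := fun x hx => hMN x (M.algebraMap_mem ⟨x, hx⟩)
  have hst : ∀ (f : Ω →ₐ[k] Ω), ∀ x ∈ N₀, f x ∈ N₀ := by
    intro f x hx
    have h1 := (IntermediateField.normal_iff_forall_map_le (F := k) (L := Ω) (K := N₀)).mp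
      inferInstance f
    exact h1 ⟨x, hx, rfl⟩
  refine ⟨IntermediateField.extendScalars hKN, ?_, ?_, ?_, ?_⟩
  · haveI : FiniteDimensional k (IntermediateField.extendScalars hKN) := by
      have h1 : FiniteDimensional k N₀ := inferInstance
      exact h1
    exact FiniteDimensional.right k K _
  · rw [IntermediateField.normal_iff_forall_map_le]
    rintro f _ ⟨x, hx, rfl⟩
    exact hst (f.restrictScalars k) x hx
  · intro t x hx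
    exact hst (t : Ω →ₐ[k] Ω) x (hMN x hx)
  · intro x hx
    exact hLN x hx

end Main

section Ultra

variable {k : Type*} [Field k] [NumberField k] {Ω : Type*} [Field Ω] [Algebra k Ω] [IsGalois k Ω]
variable {V A : Type*} [AddCommGroup V] [Module ℂ V] [FiniteDimensional ℂ V]
  [AddCommGroup A] [Module ℂ A] [FiniteDimensional ℂ A]
variable {G : Type*} [Group G] {ι : Type*} [Fintype ι]

lemma comm_res (K : IntermediateField k Ω) (a : Gal(Ω/k) →* MulAut G)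
    (haK : ∀ σ ∈ K.fixingSubgroup, a σ = 1)
    (ρ : Representation ℂ Gal(Ω/k) V) (τ : Representation ℂ G V)
    (hτ : ∀ σ g, ρ σ ∘ₗ τ g = τ (a σ g) ∘ₗ ρ σ) (σ : Gal(Ω/K)) (g : G) :
    resRep ρ K σ ∘ₗ τ g = τ g ∘ₗ resRep ρ K σ := by
  have h1 : (AlgEquiv.restrictScalarsHom k σ : Gal(Ω/k)) ∈ K.fixingSubgroup := by
    rw [IntermediateField.mem_fixingSubgroup_iff]
    intro x hx
    exact σ.commutes ⟨x, hx⟩
  have h2 := hτ (AlgEquiv.restrictScalarsHom k σ) g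
  rw [haK _ h1] at h2
  exact h2

/-- conjugates of a form -/
lemma form_conj (K : IntermediateField k Ω) (a : Gal(Ω/k) →* MulAut G)
    (ρ : Representation ℂ Gal(Ω/k) V) (τ : Representation ℂ G V)
    (hτ : ∀ σ g, ρ σ ∘ₗ τ g = τ (a σ g) ∘ₗ ρ σ) (t : Gal(Ω/k)) (ξ : Gal(Ω/K) →* G)
    (σ σ' : Gal(Ω/K)) (h : ∀ x : Ω, t (σ' x) = σ (t x)) :
    τ (a t (ξ σ')) ∘ₗ resRep ρ K σ =
      ρ t ∘ₗ (τ (ξ σ') ∘ₗ resRep ρ K σ') ∘ₗ ρ t⁻¹ := by
  have h1 : (AlgEquiv.restrictScalarsHom k σ : Gal(Ω/k)) =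
      t * AlgEquiv.restrictScalarsHom k σ' * t⁻¹ := by
    ext x
    have h2 := h (t⁻¹ x)
    have h3 : t (t⁻¹ x) = x := by
      rw [← AlgEquiv.mul_apply, mul_inv_cancel, AlgEquiv.one_apply]
    rw [h3] at h2
    exact h2.symm
  have h4 : resRep ρ K σ = ρ t ∘ₗ resRep ρ K σ' ∘ₗ ρ t⁻¹ := by
    change ρ (AlgEquiv.restrictScalarsHom k σ) = _
    rw [h1, map_mul, map_mul]
    rfl
  rw [h4, ← LinearMap.comp_assoc, ← hτ]
  rfl

lemma comp_inv_id (ρ : Representation ℂ Gal(Ω/k) V) (t : Gal(Ω/k)) :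
    ρ t⁻¹ ∘ₗ ρ t = LinearMap.id := by
  change ρ t⁻¹ * ρ t = 1
  rw [← map_mul, inv_mul_cancel, map_one]

lemma comp_inv_id' (ρ : Representation ℂ Gal(Ω/k) V) (t : Gal(Ω/k)) :
    ρ t ∘ₗ ρ t⁻¹ = LinearMap.id := by
  change ρ t * ρ t⁻¹ = 1
  rw [← map_mul, mul_inv_cancel, map_one]

/-- the invariants of conjugate representations have the same dimension -/
lemma inv_conj_le (K : IntermediateField k Ω) [Normal k K] (α : Representation ℂ Gal(Ω/k) A)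
    (t : Gal(Ω/k)) (α₁ α₂ : Representation ℂ Gal(Ω/K) A)
    (h : ∀ σ σ' : Gal(Ω/K), (∀ x : Ω, t (σ' x) = σ (t x)) → α₂ σ = α t ∘ₗ α₁ σ' ∘ₗ α t⁻¹) :
    finrank ℂ α₁.invariants ≤ finrank ℂ α₂.invariants := by
  have hmem : ∀ x ∈ α₁.invariants, α t x ∈ α₂.invariants := by
    intro x hx
    rw [Representation.mem_invariants] at hx ⊢
    intro σ
    obtain ⟨σ', hσ'⟩ := exists_conj K t σ
    rw [h σ σ' hσ', LinearMap.comp_apply, LinearMap.comp_apply]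
    have h1 : α t⁻¹ (α t x) = x := LinearMap.congr_fun (comp_inv_id α t) x
    rw [h1, hx]
  let f : α₁.invariants →ₗ[ℂ] α₂.invariants :=
    (α t ∘ₗ α₁.invariants.subtype).codRestrict α₂.invariants fun x => hmem x x.2
  apply LinearMap.finrank_le_finrank_of_injective (f := f)
  intro x y hxy
  apply Subtype.ext
  have h1 : α t (x : A) = α t (y : A) := congrArg Subtype.val hxy
  have h2 := congrArg (α t⁻¹) h1
  have h3 : ∀ z : A, α t⁻¹ (α t z) = z := fun z => LinearMap.congr_fun (comp_inv_id α t) z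
  rw [h3, h3] at h2
  exact h2

lemma inv_conj_eq (K : IntermediateField k Ω) [Normal k K] (α : Representation ℂ Gal(Ω/k) A)
    (t : Gal(Ω/k)) (α₁ α₂ : Representation ℂ Gal(Ω/K) A)
    (h : ∀ σ σ' : Gal(Ω/K), (∀ x : Ω, t (σ' x) = σ (t x)) → α₂ σ = α t ∘ₗ α₁ σ' ∘ₗ α t⁻¹) :
    finrank ℂ α₂.invariants = finrank ℂ α₁.invariants := by
  refine le_antisymm ?_ (inv_conj_le K α t α₁ α₂ h)
  refine inv_conj_le K α t⁻¹ α₂ α₁ fun σ σ' hσ => ?_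
  have h1 : ∀ x : Ω, t (σ x) = σ' (t x) := by
    intro x
    have h2 := hσ (t x)
    have h3 : t⁻¹ (t x) = x := by
      rw [← AlgEquiv.mul_apply, inv_mul_cancel, AlgEquiv.one_apply]
    rw [h3] at h2
    rw [← h2, ← AlgEquiv.mul_apply, mul_inv_cancel, AlgEquiv.one_apply]
  have h4 := h σ' σ h1
  rw [inv_inv, h4]
  ext x
  have h3 : ∀ z : A, α t⁻¹ (α t z) = z := fun z => LinearMap.congr_fun (comp_inv_id α t) z
  simp only [LinearMap.comp_apply, h3]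

variable [Finite G] [IsAlgClosed Ω]

/-- the weights of the forms over `K` -/
lemma tf_weights (K : IntermediateField k Ω) [FiniteDimensional k K] [Normal k K]
    (a : Gal(Ω/k) →* MulAut G) (haK : ∀ σ ∈ K.fixingSubgroup, a σ = 1)
    (ρ : Representation ℂ Gal(Ω/k) V) (hρ : WeightsLeTwo (RingHom.id ℂ) ρ)
    (τ : Representation ℂ G V) (hτ : ∀ σ g, ρ σ ∘ₗ τ g = τ (a σ g) ∘ₗ ρ σ)
    (M : IntermediateField K Ω) [FiniteDimensional K M]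
    (ξ : Gal(Ω/K) →* G) (hM : ∀ σ ∈ M.fixingSubgroup, ξ σ = 1)
    (ρ' : Representation ℂ Gal(Ω/K) V) (hρ' : ∀ σ, ρ' σ = τ (ξ σ) ∘ₗ resRep ρ K σ)
    (𝔭 : HeightOneSpectrum (𝓞 K)) (D : FrobeniusAt Ω 𝔭) (z : ℂ)
    (hz : z ∈ (geomFrob ρ' D).charpoly.roots) : ‖z‖ ≤ Ideal.absNorm 𝔭.asIdeal := by
  cases nonempty_fintype G
  obtain ⟨N, hN1, hN2, hN3, -⟩ := exists_big K M (⊥ : IntermediateField k Ω)
  refine form_weights (weights_res hρ K) τ (comm_res K a haK ρ τ hτ) ξ N (fun σ hσ => ?_) ρ' hρ' 𝔭 D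
    z hz
  apply hM
  rw [IntermediateField.mem_fixingSubgroup_iff] at hσ ⊢
  intro x hx
  exact hσ x (hN3 1 x hx)

lemma tf_unram (K : IntermediateField k Ω) [FiniteDimensional k K] [Normal k K]
    (ρ : Representation ℂ Gal(Ω/k) V) (hρ : WeightsLeTwo (RingHom.id ℂ) ρ)
    (τ : Representation ℂ G V)
    (N : IntermediateField K Ω) [FiniteDimensional K N]
    (ξ : Gal(Ω/K) →* G) (hN : ∀ σ ∈ N.fixingSubgroup, ξ σ = 1)
    (ρ' : Representation ℂ Gal(Ω/K) V) (hρ' : ∀ σ, ρ' σ = τ (ξ σ) ∘ₗ resRep ρ K σ) :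
    {𝔭 | ¬ Unram ρ' 𝔭}.Finite := by
  cases nonempty_fintype G
  refine ((finite_not_unram (weights_res hρ K)).union (finite_ramified (Ω := Ω) N)).subset
    fun 𝔭 h𝔭 => ?_
  by_contra hcon
  simp only [Set.mem_union, not_or] at hcon
  apply h𝔭
  refine unram_form τ ξ N hN ρ' hρ' ?_ ?_
  · by_contra h
    exact hcon.1 h
  · intro Q hQ hQ2 σ hσ
    by_contra h
    exact hcon.2 ⟨Q, hQ, hQ2, σ, hσ, h⟩

theorem tf_ultra {𝒰 : Ultrafilter ℝ} (h𝒰 : (𝒰 : Filter ℝ) ≤ 𝓝[>] 1)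
    (K : IntermediateField k Ω) [FiniteDimensional k K] [Normal k K]
    (a : Gal(Ω/k) →* MulAut G) (haK : ∀ σ ∈ K.fixingSubgroup, a σ = 1)
    (ρ : Representation ℂ Gal(Ω/k) V) (hρ : WeightsLeTwo (RingHom.id ℂ) ρ)
    (α : Representation ℂ Gal(Ω/k) A) (L : IntermediateField k Ω) [FiniteDimensional k L]
    (hα : ∀ σ ∈ L.fixingSubgroup, α σ = 1)
    (ω : Gal(Ω/k) →* ℂ) (hω : IsTateTwist ω)
    (τ : Representation ℂ G V) (hτ : ∀ σ g, ρ σ ∘ₗ τ g = τ (a σ g) ∘ₗ ρ σ)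
    (τA : Representation ℂ G A) (hτA : ∀ σ g, α σ ∘ₗ τA g = τA (a σ g) ∘ₗ α σ)
    (cl : A →ₗ[ℂ] V) (hcl : Function.Injective cl)
    (hclω : ∀ σ x, ρ σ (cl x) = ω σ • cl (α σ x)) (hclτ : ∀ g x, cl (τA g x) = τ g (cl x))
    (M : IntermediateField K Ω) [FiniteDimensional K M]
    (ξ : ι → Gal(Ω/K) →* G) (hM : ∀ i, ∀ σ ∈ M.fixingSubgroup, ξ i σ = 1)
    (t : ι → Gal(Ω/k)) (c : ι → Gal(Ω/K) →* Gal(Ω/K))
    (hc : ∀ i σ (x : Ω), t i (c i σ x) = σ (t i x))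
    (hs : ∀ i j, i ≠ j → (∀ g : G, ∃ σ, ξ i (c i σ) = 1 ∧ ξ j (c j σ) = g) ∨
      (∀ g : G, ∃ σ, ξ j (c j σ) = 1 ∧ ξ i (c i σ) = g))
    (ρ' : ι → Representation ℂ Gal(Ω/K) V) (hρ' : ∀ i σ, ρ' i σ = τ (ξ i σ) ∘ₗ resRep ρ K σ)
    (α' : ι → Representation ℂ Gal(Ω/K) A) (hα' : ∀ i σ, α' i σ = τA (ξ i σ) ∘ₗ resRep α K σ)
    (ρ₀ : Representation ℂ Gal(Ω/K) τ.invariants) (hρ₀ : ∀ σ x, (ρ₀ σ x : V) = resRep ρ K σ x)
    (α₀ : Representation ℂ Gal(Ω/K) τA.invariants) (hα₀ : ∀ σ x, (α₀ σ x : A) = resRep α K σ x) :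
    ∑ i, ((mu 𝒰 (ctr (RingHom.id ℂ) (ρ' i)) - finrank ℂ (α' i).invariants) -
        (mu 𝒰 (ctr (RingHom.id ℂ) ρ₀) - finrank ℂ α₀.invariants)) ^ 2 ≤
      (((finrank ℂ V : ℝ) - finrank ℂ A) - ((finrank ℂ τ.invariants : ℝ) -
        finrank ℂ τA.invariants)) ^ 2 := by
  classical
  cases nonempty_fintype G
  obtain ⟨N, hN1, hN2, hN3, hN4⟩ := exists_big K M L
  have hτK := comm_res K a haK ρ τ hτ
  have hτAK := comm_res K a haK α τA hτA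
  let ξ' : ι → Gal(Ω/K) →* G := fun i =>
    ((a (t i)).toMonoidHom.comp (ξ i)).comp (c i)
  have hξ' : ∀ i σ, ξ' i σ = a (t i) (ξ i (c i σ)) := fun i σ => rfl
  have hNM : ∀ i, ∀ σ ∈ N.fixingSubgroup, c i σ ∈ M.fixingSubgroup := by
    intro i σ hσ
    rw [IntermediateField.mem_fixingSubgroup_iff] at hσ ⊢
    intro x hx
    apply (t i).injective
    rw [hc, hσ _ (hN3 (t i) x hx)]
  have hNξ : ∀ i, ∀ σ ∈ N.fixingSubgroup, ξ' i σ = 1 := by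
    intro i σ hσ
    rw [hξ', hM i _ (hNM i σ hσ), map_one]
  have hNξ0 : ∀ i, ∀ σ ∈ N.fixingSubgroup, ξ i σ = 1 := by
    intro i σ hσ
    apply hM
    rw [IntermediateField.mem_fixingSubgroup_iff] at hσ ⊢
    intro x hx
    exact hσ x (hN3 1 x hx)
  have hNα : ∀ σ ∈ N.fixingSubgroup, resRep α K σ = 1 := by
    intro σ hσ
    apply hα
    rw [IntermediateField.mem_fixingSubgroup_iff] at hσ ⊢
    intro x hx
    exact hσ x (hN4 x hx)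
  have hs' : ∀ i j, i ≠ j → (∀ g : G, ∃ σ, ξ' i σ = 1 ∧ ξ' j σ = g) ∨
      (∀ g : G, ∃ σ, ξ' j σ = 1 ∧ ξ' i σ = g) := by
    intro i j hij
    rcases hs i j hij with h | h
    · left
      intro g
      obtain ⟨σ, h1, h2⟩ := h ((a (t j))⁻¹ g)
      refine ⟨σ, ?_, ?_⟩
      · rw [hξ', h1, map_one]
      · rw [hξ', h2, ← MulAut.mul_apply, mul_inv_cancel, MulAut.one_apply]
    · right
      intro g
      obtain ⟨σ, h1, h2⟩ := h ((a (t i))⁻¹ g)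
      refine ⟨σ, ?_, ?_⟩
      · rw [hξ', h1, map_one]
      · rw [hξ', h2, ← MulAut.mul_apply, mul_inv_cancel, MulAut.one_apply]
  let ρ'' : ι → Representation ℂ Gal(Ω/K) V := fun i => formRep (resRep ρ K) τ hτK (ξ' i)
  let α'' : ι → Representation ℂ Gal(Ω/K) A := fun i => formRep (resRep α K) τA hτAK (ξ' i)
  have hcore := core_ultra h𝒰 (resRep ρ K) (weights_res hρ K) (resRep α K) N hNα
    (ω.comp (AlgEquiv.restrictScalarsHom k : Gal(Ω/K) →* Gal(Ω/k)))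
    ((tate_res hω K).subset fun 𝔭 h => ⟨_, h⟩) τ hτK τA cl hcl (fun σ x => hclω _ x) hclτ N ξ' hNξ
    hs' ρ'' (fun i σ => rfl) α'' (fun i σ => rfl) ρ₀ hρ₀ α₀ hα₀
  refine le_trans (le_of_eq ?_) hcore
  refine Finset.sum_congr rfl fun i _ => ?_
  have hconjV : ∀ σ σ' : Gal(Ω/K), (∀ x : Ω, t i (σ' x) = σ (t i x)) →
      ρ'' i σ = ρ (t i) ∘ₗ (ρ' i σ') ∘ₗ ρ (t i)⁻¹ := by
    intro σ σ' h
    have h3 : c i σ = σ' := by
      ext x
      apply (t i).injective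
      rw [hc, h]
    change τ (ξ' i σ) ∘ₗ resRep ρ K σ = _
    rw [hξ', h3, form_conj K a ρ τ hτ (t i) (ξ i) σ σ' h, hρ']
  have hconjA : ∀ σ σ' : Gal(Ω/K), (∀ x : Ω, t i (σ' x) = σ (t i x)) →
      α'' i σ = α (t i) ∘ₗ (α' i σ') ∘ₗ α (t i)⁻¹ := by
    intro σ σ' h
    have h3 : c i σ = σ' := by
      ext x
      apply (t i).injective
      rw [hc, h]
    change τA (ξ' i σ) ∘ₗ resRep α K σ = _
    rw [hξ', h3, form_conj K a α τA hτA (t i) (ξ i) σ σ' h, hα']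
  have e1 : mu 𝒰 (ctr (RingHom.id ℂ) (ρ'' i)) = mu 𝒰 (ctr (RingHom.id ℂ) (ρ' i)) := by
    refine mu_conj h𝒰 K (t i) (ρ' i) (ρ'' i) ?_ ?_ ?_ ?_ ?_
    · exact tf_unram K ρ hρ τ N (ξ i) (hNξ0 i) (ρ' i) (hρ' i)
    · exact tf_unram K ρ hρ τ N (ξ' i) (hNξ i) (ρ'' i) (fun σ => rfl)
    · exact (log_LFunction_base (ρ' i) fun 𝔭 D z hz =>
        form_weights (weights_res hρ K) τ hτK (ξ i) N (hNξ0 i) (ρ' i) (hρ' i) 𝔭 D z hz).1
    · exact (log_LFunction_base (ρ'' i) fun 𝔭 D z hz =>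
        form_weights (weights_res hρ K) τ hτK (ξ' i) N (hNξ i) (ρ'' i) (fun σ => rfl) 𝔭 D z hz).1
    · intro σ σ' h
      unfold Representation.character
      rw [hconjV σ σ' h, LinearMap.trace_comp_comm', LinearMap.comp_assoc, comp_inv_id,
        LinearMap.comp_id]
  have e2 : finrank ℂ (α'' i).invariants = finrank ℂ (α' i).invariants :=
    inv_conj_eq K α (t i) (α' i) (α'' i) hconjA
  rw [e1, e2]

end Ultra

section Final

variable {k : Type*} [Field k] [NumberField k] {Ω : Type*} [Field Ω] [Algebra k Ω] [IsGalois k Ω]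
variable {V A : Type*} [AddCommGroup V] [Module ℂ V] [FiniteDimensional ℂ V]
  [AddCommGroup A] [Module ℂ A] [FiniteDimensional ℂ A]
variable {G : Type*} [Group G] [Finite G] {ι : Type*} [Fintype ι] [IsAlgClosed Ω]

theorem tf_log
    (K : IntermediateField k Ω) [FiniteDimensional k K] [Normal k K]
    (a : Gal(Ω/k) →* MulAut G) (haK : ∀ σ ∈ K.fixingSubgroup, a σ = 1)
    (ρ : Representation ℂ Gal(Ω/k) V) (hρ : WeightsLeTwo (RingHom.id ℂ) ρ)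
    (α : Representation ℂ Gal(Ω/k) A) (L : IntermediateField k Ω) [FiniteDimensional k L]
    (hα : ∀ σ ∈ L.fixingSubgroup, α σ = 1)
    (ω : Gal(Ω/k) →* ℂ) (hω : IsTateTwist ω)
    (τ : Representation ℂ G V) (hτ : ∀ σ g, ρ σ ∘ₗ τ g = τ (a σ g) ∘ₗ ρ σ)
    (τA : Representation ℂ G A) (hτA : ∀ σ g, α σ ∘ₗ τA g = τA (a σ g) ∘ₗ α σ)
    (cl : A →ₗ[ℂ] V) (hcl : Function.Injective cl)
    (hclω : ∀ σ x, ρ σ (cl x) = ω σ • cl (α σ x)) (hclτ : ∀ g x, cl (τA g x) = τ g (cl x))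
    (M : IntermediateField K Ω) [FiniteDimensional K M]
    (ξ : ι → Gal(Ω/K) →* G) (hM : ∀ i, ∀ σ ∈ M.fixingSubgroup, ξ i σ = 1)
    (t : ι → Gal(Ω/k)) (c : ι → Gal(Ω/K) →* Gal(Ω/K))
    (hc : ∀ i σ (x : Ω), t i (c i σ x) = σ (t i x))
    (hs : ∀ i j, i ≠ j → (∀ g : G, ∃ σ, ξ i (c i σ) = 1 ∧ ξ j (c j σ) = g) ∨
      (∀ g : G, ∃ σ, ξ j (c j σ) = 1 ∧ ξ i (c i σ) = g))
    (ρ' : ι → Representation ℂ Gal(Ω/K) V) (hρ' : ∀ i σ, ρ' i σ = τ (ξ i σ) ∘ₗ resRep ρ K σ)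
    (α' : ι → Representation ℂ Gal(Ω/K) A) (hα' : ∀ i σ, α' i σ = τA (ξ i σ) ∘ₗ resRep α K σ)
    (ρ₀ : Representation ℂ Gal(Ω/K) τ.invariants) (hρ₀ : ∀ σ x, (ρ₀ σ x : V) = resRep ρ K σ x)
    (α₀ : Representation ℂ Gal(Ω/K) τA.invariants) (hα₀ : ∀ σ x, (α₀ σ x : A) = resRep α K σ x)
    {ε : ℝ} (hε : 0 < ε) :
    ∀ᶠ s : ℝ in 𝓝[>] 2, ∑ i,
      ((Real.log ‖LFunction (RingHom.id ℂ) (ρ' i) s‖ / Real.log (1 / (s - 2)) -
          finrank ℂ (α' i).invariants) -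
        (Real.log ‖LFunction (RingHom.id ℂ) ρ₀ s‖ / Real.log (1 / (s - 2)) -
          finrank ℂ α₀.invariants)) ^ 2 ≤
      (((finrank ℂ V : ℝ) - finrank ℂ A) - ((finrank ℂ τ.invariants : ℝ) -
        finrank ℂ τA.invariants)) ^ 2 + ε := by
  classical
  set B2 : ℝ := (((finrank ℂ V : ℝ) - finrank ℂ A) - ((finrank ℂ τ.invariants : ℝ) -
        finrank ℂ τA.invariants)) ^ 2 with hB2
  have key : ∀ᶠ t : ℝ in 𝓝[>] 1, ∑ i,
      ((Real.log ‖LFunction (RingHom.id ℂ) (ρ' i) ((t + 1 : ℝ) : ℂ)‖ / Lam t -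
          finrank ℂ (α' i).invariants) -
        (Real.log ‖LFunction (RingHom.id ℂ) ρ₀ ((t + 1 : ℝ) : ℂ)‖ / Lam t -
          finrank ℂ α₀.invariants)) ^ 2 ≤ B2 + ε := by
    refine Filter.mem_iff_ultrafilter.mpr fun 𝒰 h𝒰 => ?_
    have h1 := tf_ultra h𝒰 K a haK ρ hρ α L hα ω hω τ hτ τA hτA cl hcl hclω hclτ M ξ hM t c hc hs ρ' hρ'
      α' hα' ρ₀ hρ₀ α₀ hα₀
    have h2 : ∀ i, Tendsto (fun t : ℝ => Real.log ‖LFunction (RingHom.id ℂ) (ρ' i)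
        ((t + 1 : ℝ) : ℂ)‖ / Lam t) 𝒰 (𝓝 (mu 𝒰 (ctr (RingHom.id ℂ) (ρ' i)))) := fun i =>
      log_tendsto_mu h𝒰 (ρ' i) (fun 𝔭 D z hz => tf_weights K a haK ρ hρ τ hτ M (ξ i) (hM i) (ρ' i)
        (hρ' i) 𝔭 D z hz)
    have h2' : Tendsto (fun t : ℝ => Real.log ‖LFunction (RingHom.id ℂ) ρ₀
        ((t + 1 : ℝ) : ℂ)‖ / Lam t) 𝒰 (𝓝 (mu 𝒰 (ctr (RingHom.id ℂ) ρ₀))) :=
      log_tendsto_mu h𝒰 ρ₀ (fun 𝔭 D z hz => sub_weights (weights_res hρ K) _ ρ₀ hρ₀ 𝔭 D z hz)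
    have h3 : Tendsto (fun t : ℝ => ∑ i,
      ((Real.log ‖LFunction (RingHom.id ℂ) (ρ' i) ((t + 1 : ℝ) : ℂ)‖ / Lam t -
          finrank ℂ (α' i).invariants) -
        (Real.log ‖LFunction (RingHom.id ℂ) ρ₀ ((t + 1 : ℝ) : ℂ)‖ / Lam t -
          finrank ℂ α₀.invariants)) ^ 2) 𝒰
        (𝓝 (∑ i, ((mu 𝒰 (ctr (RingHom.id ℂ) (ρ' i)) - finrank ℂ (α' i).invariants) -
        (mu 𝒰 (ctr (RingHom.id ℂ) ρ₀) - finrank ℂ α₀.invariants)) ^ 2)) :=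
      tendsto_finsetSum _ fun i _ => (((h2 i).sub_const _).sub (h2'.sub_const _)).pow 2
    have h4 : ∑ i, ((mu 𝒰 (ctr (RingHom.id ℂ) (ρ' i)) - finrank ℂ (α' i).invariants) -
        (mu 𝒰 (ctr (RingHom.id ℂ) ρ₀) - finrank ℂ α₀.invariants)) ^ 2 < B2 + ε := by
      linarith
    exact (h3.eventually_lt_const h4).mono fun t ht => ht.le
  have hshift : Tendsto (fun s : ℝ => s - 1) (𝓝[>] 2) (𝓝[>] 1) := by
    rw [tendsto_nhdsWithin_iff]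
    constructor
    · have : Continuous (fun s : ℝ => s - 1) := by fun_prop
      have h1 := (this.tendsto 2).mono_left (nhdsWithin_le_nhds (s := Set.Ioi 2))
      have h2 : (2 : ℝ) - 1 = 1 := by norm_num
      rw [h2] at h1
      exact h1
    · filter_upwards [self_mem_nhdsWithin] with s hs
      have : (2 : ℝ) < s := hs
      change (1 : ℝ) < s - 1
      linarith
  filter_upwards [hshift.eventually key] with s hs
  have e1 : s - 1 + 1 = s := by ring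
  have e2 : Lam (s - 1) = Real.log (1 / (s - 2)) := by
    unfold Lam
    rw [show s - 1 - 1 = s - 2 by ring]
  rw [e1, e2] at hs
  exact hs

theorem tf_pole
    (K : IntermediateField k Ω) [FiniteDimensional k K] [Normal k K]
    (a : Gal(Ω/k) →* MulAut G) (haK : ∀ σ ∈ K.fixingSubgroup, a σ = 1)
    (ρ : Representation ℂ Gal(Ω/k) V) (hρ : WeightsLeTwo (RingHom.id ℂ) ρ)
    (α : Representation ℂ Gal(Ω/k) A) (L : IntermediateField k Ω) [FiniteDimensional k L]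
    (hα : ∀ σ ∈ L.fixingSubgroup, α σ = 1)
    (ω : Gal(Ω/k) →* ℂ) (hω : IsTateTwist ω)
    (τ : Representation ℂ G V) (hτ : ∀ σ g, ρ σ ∘ₗ τ g = τ (a σ g) ∘ₗ ρ σ)
    (τA : Representation ℂ G A) (hτA : ∀ σ g, α σ ∘ₗ τA g = τA (a σ g) ∘ₗ α σ)
    (cl : A →ₗ[ℂ] V) (hcl : Function.Injective cl)
    (hclω : ∀ σ x, ρ σ (cl x) = ω σ • cl (α σ x)) (hclτ : ∀ g x, cl (τA g x) = τ g (cl x))
    (M : IntermediateField K Ω) [FiniteDimensional K M]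
    (ξ : ι → Gal(Ω/K) →* G) (hM : ∀ i, ∀ σ ∈ M.fixingSubgroup, ξ i σ = 1)
    (t : ι → Gal(Ω/k)) (c : ι → Gal(Ω/K) →* Gal(Ω/K))
    (hc : ∀ i σ (x : Ω), t i (c i σ x) = σ (t i x))
    (hs : ∀ i j, i ≠ j → (∀ g : G, ∃ σ, ξ i (c i σ) = 1 ∧ ξ j (c j σ) = g) ∨
      (∀ g : G, ∃ σ, ξ j (c j σ) = 1 ∧ ξ i (c i σ) = g))
    (ρ' : ι → Representation ℂ Gal(Ω/K) V) (hρ' : ∀ i σ, ρ' i σ = τ (ξ i σ) ∘ₗ resRep ρ K σ)
    (α' : ι → Representation ℂ Gal(Ω/K) A) (hα' : ∀ i σ, α' i σ = τA (ξ i σ) ∘ₗ resRep α K σ)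
    (ρ₀ : Representation ℂ Gal(Ω/K) τ.invariants) (hρ₀ : ∀ σ x, (ρ₀ σ x : V) = resRep ρ K σ x)
    (α₀ : Representation ℂ Gal(Ω/K) τA.invariants) (hα₀ : ∀ σ x, (α₀ σ x : A) = resRep α K σ x)
    (r : ι → ℤ) (hr : ∀ i, HasPoleOfOrder (LFunction (RingHom.id ℂ) (ρ' i)) 2 (r i))
    (r₀ : ℤ) (hr₀ : HasPoleOfOrder (LFunction (RingHom.id ℂ) ρ₀) 2 r₀) :
    ∑ i, ((r i - finrank ℂ (α' i).invariants) - (r₀ - finrank ℂ α₀.invariants)) ^ 2 ≤
      (((finrank ℂ V : ℤ) - finrank ℂ A) - ((finrank ℂ τ.invariants : ℤ) -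
        finrank ℂ τA.invariants)) ^ 2 := by
  classical
  obtain ⟨𝒰, h𝒰⟩ := Filter.exists_ultrafilter_le (𝓝[>] (1 : ℝ))
  have h1 := tf_ultra h𝒰 K a haK ρ hρ α L hα ω hω τ hτ τA hτA cl hcl hclω hclτ M ξ hM t c hc hs ρ' hρ'
      α' hα' ρ₀ hρ₀ α₀ hα₀
  have h2 : ∀ i, mu 𝒰 (ctr (RingHom.id ℂ) (ρ' i)) = r i := by
    intro i
    have e1 := log_tendsto_mu h𝒰 (ρ' i) (fun 𝔭 D z hz => tf_weights K a haK ρ hρ τ hτ M (ξ i) (hM i)
        (ρ' i) (hρ' i) 𝔭 D z hz)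
    exact tendsto_nhds_unique e1 ((hr i).tendsto.mono_left h𝒰)
  have h2' : mu 𝒰 (ctr (RingHom.id ℂ) ρ₀) = r₀ := by
    have e1 := log_tendsto_mu h𝒰 ρ₀ (fun 𝔭 D z hz => sub_weights (weights_res hρ K) _ ρ₀ hρ₀ 𝔭 D z hz)
    exact tendsto_nhds_unique e1 (hr₀.tendsto.mono_left h𝒰)
  simp only [h2, h2'] at h1
  exact_mod_cast h1

end Final

end Pool.Agent.H3.TF
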